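import Pool.Graph.R_seed8.H345R2.AP.Main
import Pool.Graph.R_seed8.H452R4.LI.ZC

/-! Multiplicities on the critical line: symmetry and the pointwise bound. -/

set_option autoImplicit false

open Finset Filter Topology

namespace Pool.Agent.H8.LI

open Pool.Agent.H345R2.AP (mz)
open Pool.Agent.H452R4.LI

lemma mz_neg (t : ℝ) : mz (-t) = mz t := by
  unfold mz
  set s0 : ℂ := 1 / 2 + Complex.I * (t : ℂ) with hs0
  have hre : s0.re = 1 / 2 := by simp [hs0]
  have e1 : (1 / 2 + Complex.I * ((-t : ℝ) : ℂ)) = 1 - s0 := by rw [hs0]; push_cast; ring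
  rw [e1]
  have hs1 : s0 ≠ 1 := by intro h; rw [h] at hre; norm_num at hre
  have hs2 : ∀ n : ℕ, s0 ≠ -n := by
    intro n h; rw [h] at hre
    simp only [Complex.neg_re, Complex.natCast_re] at hre
    have : (0 : ℝ) ≤ n := Nat.cast_nonneg _
    linarith
  set G : ℂ → ℂ := fun s => 2 * (2 * (Real.pi : ℂ)) ^ (-s) * Complex.Gamma s * Complex.cos (Real.pi * s / 2)
    with hG
  have hU : IsOpen {s : ℂ | 0 < s.re ∧ s.re < 1} :=
    (isOpen_lt continuous_const Complex.continuous_re).inter
      (isOpen_lt Complex.continuous_re continuous_const)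
  have hmem : s0 ∈ {s : ℂ | 0 < s.re ∧ s.re < 1} := by
    constructor
    · rw [hre]; norm_num
    · rw [hre]; norm_num
  have hne0 : (2 * (Real.pi : ℂ)) ≠ 0 := by
    simp [Real.pi_ne_zero]
  have hGd : DifferentiableOn ℂ G {s : ℂ | 0 < s.re ∧ s.re < 1} := by
    intro s hs
    have h2 : ∀ n : ℕ, s ≠ -n := by
      intro n h
      have h3 := hs.1
      rw [h] at h3
      simp only [Complex.neg_re, Complex.natCast_re] at h3
      have : (0 : ℝ) ≤ n := Nat.cast_nonneg _
      linarith
    have h4 := Complex.differentiableAt_Gamma s h2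
    have h5 : DifferentiableAt ℂ (fun s : ℂ => (2 * (Real.pi : ℂ)) ^ (-s)) s := by
      apply DifferentiableAt.const_cpow
      · exact differentiableAt_id.neg
      · left; exact hne0
    have h6 : DifferentiableAt ℂ (fun s : ℂ => Complex.cos (Real.pi * s / 2)) s := by fun_prop
    exact (((h5.const_mul 2).mul h4).mul h6).differentiableWithinAt
  have hGa : AnalyticAt ℂ G s0 := hGd.analyticAt (hU.mem_nhds hmem)
  have hG0 : G s0 ≠ 0 := by
    rw [hG]
    simp only
    refine mul_ne_zero (mul_ne_zero (mul_ne_zero two_ne_zero ?_) (Complex.Gamma_ne_zero hs2)) ?_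
    · rw [Complex.cpow_def_of_ne_zero hne0]; exact Complex.exp_ne_zero _
    · intro h
      rw [Complex.cos_eq_zero_iff] at h
      obtain ⟨k, hk⟩ := h
      have hpi : (Real.pi : ℂ) ≠ 0 := by exact_mod_cast Real.pi_ne_zero
      have h3 : s0 = 2 * k + 1 := by
        field_simp at hk
        linear_combination hk
      have h4 : s0.re = 2 * k + 1 := by
        rw [h3]; simp
      rw [hre] at h4
      have h5 : (1 : ℝ) = 4 * k + 2 := by linarith
      have h6 : (1 : ℤ) = 4 * k + 2 := by exact_mod_cast h5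
      omega
  have hz : AnalyticAt ℂ riemannZeta s0 := by
    have hAn : DifferentiableOn ℂ riemannZeta ({1}ᶜ : Set ℂ) := by
      intro w hw
      exact (differentiableAt_riemannZeta hw).differentiableWithinAt
    exact hAn.analyticAt (isOpen_compl_singleton.mem_nhds hs1)
  have heq : (riemannZeta ∘ fun s : ℂ => 1 - s) =ᶠ[𝓝 s0] (G * riemannZeta) := by
    filter_upwards [hU.mem_nhds hmem] with s hs
    have h1 : s ≠ 1 := by
      intro h; have := hs.2; rw [h] at this; norm_num at this
    have h2 : ∀ n : ℕ, s ≠ -n := by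
      intro n h
      have h3 := hs.1
      rw [h] at h3
      simp only [Complex.neg_re, Complex.natCast_re] at h3
      have : (0 : ℝ) ≤ n := Nat.cast_nonneg _
      linarith
    simp only [Function.comp_apply, Pi.mul_apply, hG]
    rw [riemannZeta_one_sub h2 h1]
  have h1 : analyticOrderAt riemannZeta (1 - s0) = analyticOrderAt riemannZeta s0 := by
    have hga : AnalyticAt ℂ (fun s : ℂ => 1 - s) s0 := by fun_prop
    have hgd : deriv (fun s : ℂ => 1 - s) s0 ≠ 0 := by
      rw [deriv_const_sub]; simp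
    rw [← analyticOrderAt_comp_of_deriv_ne_zero (f := riemannZeta) hga hgd,
      analyticOrderAt_congr heq, analyticOrderAt_mul hGa hz,
      hGa.analyticOrderAt_eq_zero.2 hG0, zero_add]
  unfold analyticOrderNatAt
  rw [h1]

lemma mz_abs (t : ℝ) : mz |t| = mz t := by
  rcases abs_choice t with h | h
  · rw [h]
  · rw [h, mz_neg]

/-- pointwise bound -/
theorem mz_bound : ∃ C : ℝ, 0 < C ∧ ∀ T t : ℝ, 3 ≤ T → |t| ≤ 2 * T → (mz t : ℝ) ≤ C * Real.log T := by
  classical
  obtain ⟨C, hC, hcount⟩ := H370.zcount H370.good_zeta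
  have hfin := ZCaux.small_finite
  set S := hfin.toFinset with hS
  set B : ℕ := ∑ γ ∈ S, mz γ + mz 0 with hB
  refine ⟨2 * C + B + 1, by positivity, ?_⟩
  intro T t hT ht
  have hlogT : 1 < Real.log T := by
    rw [Real.lt_log_iff_exp_lt (by linarith)]
    exact lt_of_lt_of_le (lt_trans Real.exp_one_lt_d9 (by norm_num)) hT
  rw [← mz_abs]
  set u := |t| with hu
  have hu0 : 0 ≤ u := abs_nonneg _
  have hB0 : (0 : ℝ) ≤ B := Nat.cast_nonneg _
  by_cases hz : riemannZeta (ZCaux.pt u) = 0
  swap
  · have h0 : mz u = 0 := by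
      unfold mz
      rw [analyticOrderNatAt, ENat.toNat_eq_zero]
      left
      rw [analyticOrderAt_eq_zero]
      right; exact hz
    rw [h0]
    push_cast
    positivity
  by_cases h4 : u ≤ 4
  · have h5 : mz u ≤ B := by
      rcases hu0.eq_or_lt with h0 | h0
      · rw [← h0, hB]; omega
      · have h6 : u ∈ S := by
          rw [hS, Set.Finite.mem_toFinset]
          exact ⟨h0, h4, hz⟩
        have h7 := Finset.single_le_sum (f := fun γ => mz γ) (fun _ _ => Nat.zero_le _) h6
        rw [hB]
        have h7 := h7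
        omega
    have h6 : (mz u : ℝ) ≤ B := by exact_mod_cast h5
    nlinarith
  · push Not at h4
    have hcnt := hcount u (by linarith)
    have hT2 : (1:ℝ) ≤ u - 1 := by linarith
    rw [H370.NN_eq_sum H370.good_zeta _ _ hT2] at hcnt
    have hmem : ZCaux.pt u ∈ (H370.zset_finite H370.good_zeta (u - 1) (u + 1) hT2).toFinset := by
      rw [Set.Finite.mem_toFinset]
      refine ⟨?_, ?_, ?_, ?_, hz⟩
      · rw [ZCaux.pt_re]; norm_num
      · rw [ZCaux.pt_re]; norm_num
      · rw [ZCaux.pt_im]; linarith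
      · rw [ZCaux.pt_im]; linarith
    have h7 := Finset.single_le_sum (f := fun s => H370.mult riemannZeta s) (fun _ _ => Nat.zero_le _) hmem
    have h8 : mz u = H370.mult riemannZeta (ZCaux.pt u) := rfl
    have h9 : (mz u : ℝ) ≤ ((∑ s ∈ (H370.zset_finite H370.good_zeta (u - 1) (u + 1) hT2).toFinset,
        H370.mult riemannZeta s : ℕ) : ℝ) := by
      rw [h8]; exact_mod_cast h7
    refine (h9.trans hcnt).trans ?_
    have h10 : Real.log u ≤ 2 * Real.log T := by
      have h11 : u ≤ T ^ 2 := by nlinarith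
      calc Real.log u ≤ Real.log (T ^ 2) := Real.log_le_log (by linarith) h11
        _ = 2 * Real.log T := by rw [Real.log_pow]; norm_num
    have h12 : C * Real.log u ≤ C * (2 * Real.log T) := by gcongr
    nlinarith

end Pool.Agent.H8.LI
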