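import Pool.Agent.H8.LI.PS3
import Pool.Agent.H8.LI.MU
import Pool.Graph.R_seed8.H452R4.LI.GI
import Pool.Graph.R_seed8.H452R4.LI.Fin

/-! Sums of two sparse sets of reals and ordinates of zeros. -/

set_option autoImplicit false

open Finset ArithmeticFunction Filter

namespace Pool.Agent.H8.LI

open Pool.Agent.H452R4.LI
open Pool.Agent.H345R2.AP (mz SS SS_nonneg)

/-- the growth facts -/
lemma ev2 (c ρ T0 C4 C5 : ℝ) (hc : 0 < c) (hρ : 0 < ρ) (hT0 : 0 ≤ T0) (hC5 : 0 < C5) :
    ∀ᶠ L : ℝ in atTop, 1 ≤ L ∧ C4 ≤ ρ * L ∧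
      6 * L * (2 * (T0 + 2 * Real.exp (4 * Real.sqrt (3 * L))) + 2) * Real.exp (-(c / 2 * L)) ≤ ρ ∧
      C5 * L * (2 * (T0 + 2 * Real.exp (4 * Real.sqrt (3 * L))) + 2) * Real.exp (-(1 / 2 * L)) ≤ ρ := by
  have key : ∀ (a K : ℝ), 0 < a → 0 < K → ∀ᶠ L : ℝ in atTop,
      K * L * (2 * (T0 + 2 * Real.exp (4 * Real.sqrt (3 * L))) + 2) * Real.exp (-(a * L)) ≤ ρ := by
    intro a K ha hK
    have h1 : Tendsto (fun L : ℝ => (K * (2 * T0 + 6)) * (L ^ (1 : ℝ) *
        Real.exp (-(a / 2) * L))) atTop (nhds ((K * (2 * T0 + 6)) * 0)) :=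
      (tendsto_rpow_mul_exp_neg_mul_atTop_nhds_zero 1 (a / 2) (by positivity)).const_mul _
    rw [mul_zero] at h1
    filter_upwards [h1.eventually_le_const hρ, eventually_ge_atTop (1 : ℝ),
      eventually_ge_atTop (192 / a ^ 2)] with L hL hL1 hL3
    rw [Real.rpow_one] at hL
    have hL0 : 0 < L := by linarith
    have h3 : 4 * Real.sqrt (3 * L) ≤ a / 2 * L := by
      have h4 : Real.sqrt (3 * L) ≤ a / 8 * L := by
        rw [Real.sqrt_le_left (by positivity)]
        rw [div_le_iff₀ (by positivity)] at hL3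
        nlinarith
      linarith
    have h5 : Real.exp (4 * Real.sqrt (3 * L)) ≤ Real.exp (a / 2 * L) := Real.exp_le_exp.mpr h3
    have h6 : 1 ≤ Real.exp (a / 2 * L) := Real.one_le_exp (by positivity)
    have h7 : 2 * (T0 + 2 * Real.exp (4 * Real.sqrt (3 * L))) + 2 ≤
        (2 * T0 + 6) * Real.exp (a / 2 * L) := by nlinarith
    calc K * L * (2 * (T0 + 2 * Real.exp (4 * Real.sqrt (3 * L))) + 2) * Real.exp (-(a * L))
        ≤ K * L * ((2 * T0 + 6) * Real.exp (a / 2 * L)) * Real.exp (-(a * L)) := by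
          gcongr
      _ = (K * (2 * T0 + 6)) * (L * (Real.exp (a / 2 * L) * Real.exp (-(a * L)))) := by ring
      _ = (K * (2 * T0 + 6)) * (L * Real.exp (-(a / 2) * L)) := by
          rw [← Real.exp_add]; congr 3; ring
      _ ≤ ρ := hL
  filter_upwards [key (c / 2) 6 (by positivity) (by norm_num), key (1 / 2) C5 (by norm_num) hC5,
    eventually_ge_atTop (1 : ℝ), eventually_ge_atTop (C4 / ρ)] with L h1 h2 h3 h4
  rw [div_le_iff₀ hρ] at h4
  exact ⟨h3, by linarith, h1, h2⟩

theorem gen1 (hRH : RH0) (δ ε : ℝ) (hδ : 0 < δ) (hε : 0 < ε) :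
    ∃ T1 : ℝ, 3 ≤ T1 ∧ ∀ T : ℝ, T1 ≤ T → ∀ (A B : Finset ℝ) (w v : ℝ),
      (∀ a ∈ A, |a| ≤ T) → (∀ b ∈ B, |b| ≤ T) → dens A w → dens B v → A.Nonempty → B.Nonempty →
      (A.card : ℝ) * v ≤ B.card * w →
      (1 + δ) * Real.log T ≤ Real.log ((B.card : ℝ) / v) + Real.log ((A.card : ℝ) / w) / 2 →
      ∑ x ∈ A ×ˢ B, (mz (x.1 + x.2) : ℝ) ≤
        (Real.log T / Real.log ((A.card : ℝ) * B.card / (w * v)) + ε) * ((A.card : ℝ) * B.card) := by
  classical
  obtain ⟨C, T0, hC, hT0, hmain⟩ := gi hRH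
  obtain ⟨hex1, hex2⟩ := exc
  obtain ⟨C5, hC5, hmult⟩ := mz_bound
  have hSS := SS_nonneg
  set ε1 : ℝ := min ε 1 with hε1
  have hε10 : 0 < ε1 := lt_min hε one_pos
  have hε11 : ε1 ≤ 1 := min_le_right _ _
  have hε1e : ε1 ≤ ε := min_le_left _ _
  set c : ℝ := min (δ / 2) (ε1 / 16) with hc
  have hc0 : 0 < c := lt_min (by positivity) (by positivity)
  have hcδ : c ≤ δ / 2 := min_le_left _ _
  have hc16 : c ≤ ε1 / 16 := min_le_right _ _
  set p : ℝ := 4 / c with hp
  have hp1 : 1 ≤ p := by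
    rw [hp, le_div_iff₀ hc0]; linarith
  set ρ : ℝ := ε1 / 16 with hρ
  have hρ0 : 0 < ρ := by positivity
  set C4 : ℝ := 1 + 2 * (1 + 3 * Real.exp (p ^ 2 / 2 + p) * SS + C) with hC4
  obtain ⟨L1, hP1⟩ := P1 c ρ hc0 hρ0
  have hev := (Real.tendsto_log_atTop.eventually
    ((ev2 c ρ T0 C4 C5 hc0 hρ0 (by linarith) hC5).and (eventually_ge_atTop (max L1 (max 6 (3 / δ)))))).and
      (eventually_ge_atTop (3 : ℝ))
  obtain ⟨T1, hT1⟩ := eventually_atTop.mp hev
  refine ⟨max T1 3, le_max_right _ _, fun T hT A B w v hA hB hdA hdB hAne hBne hcard hq => ?_⟩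
  obtain ⟨⟨⟨hL1, hLC, hgr1, hgr2⟩, hL6'⟩, hT3⟩ := hT1 T ((le_max_left _ _).trans hT)
  set L : ℝ := Real.log T with hL
  have hLL1 : L1 ≤ L := (le_max_left _ _).trans hL6'
  have hL6 : 6 ≤ L := (le_max_left _ _).trans ((le_max_right _ _).trans hL6')
  have hδL : 3 ≤ δ * L := by
    have := (le_max_right _ _).trans ((le_max_right _ _).trans hL6')
    rw [div_le_iff₀ hδ] at this; linarith
  have hL0 : 0 < L := by linarith
  have hTpos : 0 < T := by linarith
  have hTexp : Real.exp L = T := Real.exp_log hTpos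
  have hw1 : 1 ≤ w := dens_one_le hdA hAne
  have hw : 0 < w := by linarith
  have hv : 0 < v := lt_of_lt_of_le one_pos (dens_one_le hdB hBne)
  have hn : (0 : ℝ) < A.card := by exact_mod_cast card_pos.2 hAne
  have hm : (0 : ℝ) < B.card := by exact_mod_cast card_pos.2 hBne
  set Q : ℝ := (A.card : ℝ) * B.card with hQ
  have hQ0 : 0 < Q := by positivity
  set q : ℝ := Real.log (Q / (w * v)) with hqd
  have hup : ∀ (A' : Finset ℝ) (w' : ℝ), (∀ a ∈ A', |a| ≤ T) → dens A' w' → A'.Nonempty →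
      Real.log ((A'.card : ℝ) / w') ≤ L + 2 * Real.log 2 := by
    intro A' w' hA' hd' hne'
    have hn' : (0 : ℝ) < A'.card := by exact_mod_cast card_pos.2 hne'
    have hw' : 0 < w' := lt_of_lt_of_le one_pos (dens_one_le hd' hne')
    have h1 := hex2 A' w' T hTpos.le hA' hd'
    have h3 : (A'.card : ℝ) / w' ≤ 4 * T := by
      rw [div_le_iff₀ hw']
      have hT1 : 2 * T + 2 ≤ 4 * T := by linarith
      have h4 := mul_le_mul_of_nonneg_left hT1 hw'.le
      linarith
    calc Real.log ((A'.card : ℝ) / w') ≤ Real.log (4 * T) := Real.log_le_log (by positivity) h3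
      _ = L + 2 * Real.log 2 := by
        rw [Real.log_mul (by norm_num) hTpos.ne', show (4 : ℝ) = 2 ^ 2 by norm_num, Real.log_pow]
        push_cast; ring
  have hqab : q = Real.log ((A.card : ℝ) / w) + Real.log ((B.card : ℝ) / v) := by
    rw [hqd, ← Real.log_mul (by positivity) (by positivity), hQ]
    congr 1; field_simp
  have hl2 := Real.log_two_lt_d9
  have ha3 := hup A w hA hdA hAne
  have hb3 := hup B v hB hdB hBne
  set a : ℝ := Real.log ((A.card : ℝ) / w) with had
  set b : ℝ := Real.log ((B.card : ℝ) / v) with hbd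
  have ha0 : 0 ≤ a := by linarith
  have hq3 : q ≤ 3 * L := by linarith
  have hqL : (1 + δ) * L ≤ q := by linarith
  have hq1 : L ≤ q := by linarith
  have hexpq : Real.exp q = Q / (w * v) := Real.exp_log (by positivity)
  -- cutoff
  set N : ℕ := ⌊Real.exp (q - c * L)⌋₊ with hN
  have hcL : c * L ≤ δ / 2 * L := mul_le_mul_of_nonneg_right hcδ hL0.le
  have hqc : 1 ≤ q - c * L := by linarith
  have hexp1 : 1 ≤ Real.exp (q - c * L) := Real.one_le_exp (by linarith)
  have hN1 : 1 ≤ N := by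
    rw [hN, Nat.one_le_floor_iff]; exact hexp1
  have hNle : (N : ℝ) ≤ Real.exp (q - c * L) := Nat.floor_le (Real.exp_pos _).le
  have hN0 : (0 : ℝ) < N := by exact_mod_cast hN1
  have hlogN : Real.log N ≤ q - c * L := by
    rw [Real.log_le_iff_le_exp hN0]; exact hNle
  have hlogN2 : q - c * L - 1 ≤ Real.log N := by
    have h1 : Real.exp (q - c * L) < N + 1 := Nat.lt_floor_add_one _
    have h2 : Real.exp (q - c * L) ≤ 2 * N := by
      have : (1 : ℝ) ≤ N := by exact_mod_cast hN1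
      linarith
    have h3 : q - c * L ≤ Real.log (2 * N) := by
      rw [Real.le_log_iff_exp_le (by positivity)]; exact h2
    rw [Real.log_mul (by norm_num) hN0.ne'] at h3
    have := Real.log_two_lt_d9
    linarith
  have hlogN0 : 0 ≤ Real.log N := Real.log_natCast_nonneg _
  set U : ℝ := q - 2 * c * L with hU
  have hUL : L ≤ U := by rw [hU]; linarith
  have hU0 : 0 < U := by linarith
  have hcL0 : 0 < c * L := by positivity
  have hU3 : U ≤ 3 * L := by rw [hU]; linarith
  set tm : ℝ := T0 + 2 * Real.exp (4 * Real.sqrt (3 * L)) with htm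
  have htm0 : 0 ≤ tm := by positivity
  -- the sets
  set P : ℝ × ℝ → Prop := fun x => tm ≤ |x.1 + x.2 + 0| with hP
  set S : Finset (ℝ × ℝ) := (A ×ˢ B).filter P with hS
  set E : Finset (ℝ × ℝ) := (A ×ˢ B).filter (fun x => ¬ P x) with hE
  have hScard : (S.card : ℝ) ≤ Q := by
    have h1 : S.card ≤ (A ×ˢ B).card := card_filter_le _ _
    rw [card_product] at h1
    rw [hQ]; exact_mod_cast h1
  have hEcard : (E.card : ℝ) ≤ A.card * (v * (2 * tm + 2)) := by
    have h1 := hex1 A B v tm 0 htm0 hdB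
    have h2 : E = (A ×ˢ B).filter (fun x : ℝ × ℝ => |x.1 + x.2 + 0| < tm) := by
      rw [hE]
      apply Finset.filter_congr
      intro x _
      simp only [hP, not_le]
    rw [h2]; exact h1
  have hAw : (A.card : ℝ) * v * Real.exp (q / 2) ≤ Q := by
    have h0 : 0 ≤ (A.card : ℝ) * v * Real.exp (q / 2) := by positivity
    apply abs_le_of_sq_le_sq' _ hQ0.le |>.2
    have h1 : Real.exp (q / 2) ^ 2 = Q / (w * v) := by
      rw [← hexpq, ← Real.exp_nat_mul]; congr 1; push_cast; ring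
    rw [mul_pow, h1, hQ]
    have h2 : ((A.card : ℝ) * v) ^ 2 * ((A.card : ℝ) * B.card / (w * v)) =
        ((A.card : ℝ) * v) * ((A.card : ℝ) ^ 2 * B.card / w) := by field_simp
    rw [h2]
    calc ((A.card : ℝ) * v) * ((A.card : ℝ) ^ 2 * B.card / w)
        ≤ (B.card * w) * ((A.card : ℝ) ^ 2 * B.card / w) := mul_le_mul_of_nonneg_right hcard (by positivity)
      _ = ((A.card : ℝ) * B.card) ^ 2 := by field_simp
  have htm2 : 0 < 2 * tm + 2 := by linarith
  have hE1 : (E.card : ℝ) * (2 * Real.sqrt N * Real.log N) ≤ ρ * Q := by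
    have h1 : Real.sqrt N ≤ Real.exp (q / 2) * Real.exp (-(c / 2 * L)) := by
      rw [← Real.exp_add, Real.sqrt_le_left (Real.exp_pos _).le, ← Real.exp_nat_mul]
      refine hNle.trans (Real.exp_le_exp.2 (le_of_eq ?_))
      push_cast; ring
    calc (E.card : ℝ) * (2 * Real.sqrt N * Real.log N)
        ≤ (A.card * (v * (2 * tm + 2))) * (2 * (Real.exp (q / 2) * Real.exp (-(c / 2 * L))) * (3 * L)) := by
          apply mul_le_mul hEcard _ (by positivity) (by positivity)
          apply mul_le_mul _ (by linarith) hlogN0 (by positivity)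
          exact mul_le_mul_of_nonneg_left h1 (by norm_num)
      _ = (A.card * v * Real.exp (q / 2)) * (6 * L * (2 * tm + 2) * Real.exp (-(c / 2 * L))) := by ring
      _ ≤ Q * ρ := by
          apply mul_le_mul hAw hgr1 (by positivity) hQ0.le
      _ = _ := by ring
  have hE2 : (E.card : ℝ) * (C5 * L) ≤ ρ * Q := by
    have h1 : Real.exp (1 / 2 * L) ≤ Real.exp (q / 2) := Real.exp_le_exp.2 (by linarith)
    have h2 : (A.card : ℝ) * v ≤ Q * Real.exp (-(1 / 2 * L)) := by
      rw [Real.exp_neg, ← div_eq_mul_inv, le_div_iff₀ (Real.exp_pos _)]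
      refine le_trans ?_ hAw
      exact mul_le_mul_of_nonneg_left h1 (by positivity)
    calc (E.card : ℝ) * (C5 * L) ≤ (A.card * (v * (2 * tm + 2))) * (C5 * L) :=
          mul_le_mul_of_nonneg_right hEcard (by positivity)
      _ = (A.card * v) * (C5 * L * (2 * tm + 2)) := by ring
      _ ≤ (Q * Real.exp (-(1 / 2 * L))) * (C5 * L * (2 * tm + 2)) :=
          mul_le_mul_of_nonneg_right h2 (by positivity)
      _ = Q * (C5 * L * (2 * tm + 2) * Real.exp (-(1 / 2 * L))) := by ring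
      _ ≤ Q * ρ := mul_le_mul_of_nonneg_left hgr2 hQ0.le
      _ = _ := by ring
  have hPP := hP1 T v w B A N (by linarith) hLL1 hN1 hB hA hdB hdA
    (le_trans (mul_le_mul_of_nonneg_right (by linarith) hL0.le) hq)
    (by rw [add_comm (Real.log ((B.card : ℝ) / v)), ← had, ← hbd, ← hqab]; exact hlogN)
  have hPP : ∑ n ∈ Ico 1 N, vonMangoldt n * (n : ℝ) ^ (-(1 / 2 : ℝ)) * (EE A n * EE B n) ≤
        ρ * L * Q := by
    rw [hQ, mul_comm (A.card : ℝ)]
    refine le_trans (le_of_eq (sum_congr rfl fun n _ => ?_)) hPP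
    ring
  have hplain := plain N hN1
  have hprime : ∑ n ∈ Ico 1 N, vonMangoldt n * (n : ℝ) ^ (-(1 / 2 : ℝ)) *
      |∑ x ∈ S, Real.cos ((x.1 + x.2 + 0) * Real.log n)| ≤ ρ * L * Q + ρ * Q := by
    have h1 : ∀ n ∈ Ico 1 N, vonMangoldt n * (n : ℝ) ^ (-(1 / 2 : ℝ)) *
        |∑ x ∈ S, Real.cos ((x.1 + x.2 + 0) * Real.log n)| ≤
        vonMangoldt n * (n : ℝ) ^ (-(1 / 2 : ℝ)) * (EE A n * EE B n) +
        vonMangoldt n * (n : ℝ) ^ (-(1 / 2 : ℝ)) * E.card := by
      intro n _
      rw [← mul_add]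
      exact mul_le_mul_of_nonneg_left (spl A B 0 n P)
        (mul_nonneg vonMangoldt_nonneg (by positivity))
    refine (Finset.sum_le_sum h1).trans ?_
    rw [Finset.sum_add_distrib, ← Finset.sum_mul]
    refine add_le_add hPP ?_
    calc (∑ n ∈ Ico 1 N, vonMangoldt n * (n : ℝ) ^ (-(1 / 2 : ℝ))) * E.card
        ≤ (2 * Real.sqrt N * Real.log N) * E.card := mul_le_mul_of_nonneg_right hplain (by positivity)
      _ ≤ _ := by rw [mul_comm]; exact hE1
  have hm1 := hmain (ℝ × ℝ) S (fun x => x.1 + x.2 + 0) (2 * T) U p N hU0 hp1 hN1 (by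
      intro x hx
      rw [hS, mem_filter, mem_product] at hx
      obtain ⟨⟨hxA, hxB⟩, hxP⟩ := hx
      have hx1 := hA _ hxA
      have hx2 := hB _ hxB
      have hxP' : tm ≤ |x.1 + x.2 + 0| := hxP
      have he0 : 0 < Real.exp (4 * Real.sqrt (3 * L)) := Real.exp_pos _
      refine ⟨by linarith, ?_, ?_⟩
      · rw [add_zero]
        have h1 : |x.1 + x.2| ≤ |x.1| + |x.2| := abs_add_le _ _
        linarith
      · have h1 : 4 * Real.sqrt (3 * L) ≤ Real.log (|x.1 + x.2 + 0| / 2) := by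
          rw [Real.le_log_iff_exp_le (by linarith)]
          linarith
        have h2 : 0 ≤ 3 * L := by positivity
        have h3 := Real.mul_self_sqrt h2
        have h4 := Real.sqrt_nonneg (3 * L)
        have h5 : (4 * Real.sqrt (3 * L)) ^ 2 ≤ Real.log (|x.1 + x.2 + 0| / 2) ^ 2 :=
          pow_le_pow_left₀ (by positivity) h1 2
        have h6 : (4 * Real.sqrt (3 * L)) ^ 2 = 16 * (3 * L) := by
          rw [mul_pow, Real.sq_sqrt h2]; norm_num
        show U ≤ Real.log (|x.1 + x.2 + 0| / 2) ^ 2 / 16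
        linarith)
  have hBb : Real.exp (p ^ 2 / 2 + p * U + (1 - p) * Real.log N) * U ≤
      3 * Real.exp (p ^ 2 / 2 + p) := by
    have h1 : p ^ 2 / 2 + p * U + (1 - p) * Real.log N ≤ (p ^ 2 / 2 + p) + -L := by
      have h2 : (1 - p) * Real.log N ≤ (1 - p) * (q - c * L - 1) :=
        mul_le_mul_of_nonpos_left hlogN2 (by linarith)
      have hpc : p * c = 4 := by rw [hp]; field_simp
      have h3 : p * U + (1 - p) * (q - c * L - 1) = q - (p * c) * L - c * L - 1 + p := by
        rw [hU]; ring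
      rw [hpc] at h3
      linarith
    calc Real.exp (p ^ 2 / 2 + p * U + (1 - p) * Real.log N) * U
        ≤ Real.exp ((p ^ 2 / 2 + p) + -L) * (3 * L) := by
          apply mul_le_mul (Real.exp_le_exp.mpr h1) hU3 hU0.le (Real.exp_pos _).le
      _ = 3 * Real.exp (p ^ 2 / 2 + p) * (Real.exp (-L) * L) := by rw [Real.exp_add]; ring
      _ ≤ 3 * Real.exp (p ^ 2 / 2 + p) * 1 := by
          apply mul_le_mul_of_nonneg_left _ (by positivity)
          rw [Real.exp_neg, inv_mul_le_iff₀ (Real.exp_pos _), mul_one]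
          linarith [Real.add_one_le_exp L]
      _ = _ := by ring
  have hlogM : Real.log (2 * T) ≤ 1 + L := by
    rw [Real.log_mul (by norm_num) hTpos.ne']
    have := Real.log_two_lt_d9
    linarith
  have hm2 : U / 2 * ∑ x ∈ S, (mz |x.1 + x.2 + 0| : ℝ) ≤ Q * (L / 2 + ρ * L + C4 / 2) := by
    refine hm1.trans ?_
    have h1 : (S.card : ℝ) * Real.exp (p ^ 2 / 2 + p * U + (1 - p) * Real.log N) *
        SS * U = S.card * SS * (Real.exp (p ^ 2 / 2 + p * U + (1 - p) * Real.log N) * U) := by ring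
    rw [h1]
    have h2 : (S.card : ℝ) * SS * (Real.exp (p ^ 2 / 2 + p * U +
        (1 - p) * Real.log N) * U) ≤ Q * SS * (3 * Real.exp (p ^ 2 / 2 + p)) := by
      apply mul_le_mul _ hBb (by positivity) (by positivity)
      exact mul_le_mul_of_nonneg_right hScard hSS
    have h3 : (S.card : ℝ) * Real.log (2 * T) / 2 ≤ Q * (1 + L) / 2 := by
      have : (S.card : ℝ) * Real.log (2 * T) ≤ Q * (1 + L) :=
        mul_le_mul hScard hlogM (Real.log_nonneg (by linarith)) hQ0.le
      linarith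
    have h4 : (S.card : ℝ) * C ≤ Q * C := mul_le_mul_of_nonneg_right hScard hC.le
    have hρ1 : ρ ≤ 1 := by rw [hρ]; linarith
    have h6 : ρ * Q ≤ Q := by
      have := mul_le_mul_of_nonneg_right hρ1 hQ0.le
      linarith
    have h5 : Q * (L / 2 + ρ * L + C4 / 2) = Q * (1 + L) / 2 +
        (ρ * L * Q + Q) + Q * SS * (3 * Real.exp (p ^ 2 / 2 + p)) + Q * C := by
      rw [hC4]; ring
    rw [h5]
    have h7 : ρ * L * Q + ρ * Q ≤ ρ * L * Q + Q := by linarith
    exact add_le_add (add_le_add (add_le_add h3 (hprime.trans h7)) h2) h4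
  have hm3 : ∑ x ∈ S, (mz |x.1 + x.2 + 0| : ℝ) ≤ (L / q + 3 * c + 3 * ρ) * Q := by
    have h0 : 0 < U / 2 := by positivity
    have h1 : ∑ x ∈ S, (mz |x.1 + x.2 + 0| : ℝ) ≤ Q * (L / 2 + ρ * L + C4 / 2) / (U / 2) := by
      rw [le_div_iff₀ h0, mul_comm]
      exact hm2
    refine h1.trans ?_
    have h2 : Q * (L / 2 + ρ * L + C4 / 2) / (U / 2) = (L / U + (2 * ρ * L + C4) / U) * Q := by
      field_simp; ring
    rw [h2]
    apply mul_le_mul_of_nonneg_right _ hQ0.le
    have h3 : (2 * ρ * L + C4) / U ≤ 3 * ρ := by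
      rw [div_le_iff₀ hU0]
      calc 2 * ρ * L + C4 ≤ 2 * ρ * L + ρ * L := by linarith
        _ = 3 * ρ * L := by ring
        _ ≤ 3 * ρ * U := mul_le_mul_of_nonneg_left hUL (by positivity)
    have hqpos : 0 < q := by linarith
    have h4 : L / U ≤ L / q + 3 * c := by
      rw [div_add' _ _ _ hqpos.ne', div_le_div_iff₀ hU0 hqpos]
      have e1 : c ≤ 1 / 16 := by linarith
      have e3 : (L + 3 * c * q) * U = L * q + c * (3 * q * q - 2 * L * L - 6 * c * q * L) := by
        rw [hU]; ring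
      rw [e3]
      have e4 : 0 ≤ c * (3 * q * q - 2 * L * L - 6 * c * q * L) := by
        apply mul_nonneg hc0.le
        have e5 : 6 * c * q * L ≤ 3 / 8 * (q * L) := by
          have h0 : 0 ≤ q * L := by positivity
          have h1 := mul_le_mul_of_nonneg_right e1 h0
          linarith
        have e6 : q * L ≤ q * q := mul_le_mul_of_nonneg_left hq1 hqpos.le
        have e7 : L * L ≤ q * q := mul_le_mul hq1 hq1 hL0.le hqpos.le
        have e8 : 0 ≤ q * q := by positivity
        linarith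
      linarith
    linarith
  -- assemble
  have hsplit : ∑ x ∈ A ×ˢ B, (mz (x.1 + x.2) : ℝ) =
      ∑ x ∈ S, (mz |x.1 + x.2 + 0| : ℝ) + ∑ x ∈ E, (mz (x.1 + x.2) : ℝ) := by
    rw [← Finset.sum_filter_add_sum_filter_not (A ×ˢ B) P]
    congr 1
    refine Finset.sum_congr rfl fun x _ => ?_
    rw [add_zero, mz_abs]
  have hEm : ∑ x ∈ E, (mz (x.1 + x.2) : ℝ) ≤ ρ * Q := by
    refine le_trans ?_ hE2
    calc ∑ x ∈ E, (mz (x.1 + x.2) : ℝ) ≤ ∑ x ∈ E, C5 * L := by
          apply Finset.sum_le_sum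
          intro x hx
          rw [hE, mem_filter, mem_product] at hx
          apply hmult T _ hT3
          have h1 : |x.1 + x.2| ≤ |x.1| + |x.2| := abs_add_le _ _
          have hx1 := hA _ hx.1.1
          have hx2 := hB _ hx.1.2
          linarith
      _ = (E.card : ℝ) * (C5 * L) := by rw [Finset.sum_const, nsmul_eq_mul]
  rw [hsplit]
  have h1 : (L / q + 3 * c + 3 * ρ) * Q + ρ * Q ≤ (L / q + ε) * Q := by
    have : (L / q + 3 * c + 3 * ρ) * Q + ρ * Q = (L / q + 3 * c + 4 * ρ) * Q := by ring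
    rw [this]
    apply mul_le_mul_of_nonneg_right _ hQ0.le
    linarith
  linarith

theorem gen2 (hRH : RH0) (δ ε : ℝ) (hδ : 0 < δ) (hε : 0 < ε) :
    ∃ T1 : ℝ, 3 ≤ T1 ∧ ∀ T : ℝ, T1 ≤ T → ∀ (A B : Finset ℝ) (w v : ℝ),
      (∀ a ∈ A, |a| ≤ T) → (∀ b ∈ B, |b| ≤ T) → dens A w → dens B v → 0 < w → 0 < v →
      w ^ 2 * v * T ^ (2 + δ) ≤ (A.card : ℝ) ^ 2 * B.card →
      ∑ a ∈ A, ∑ b ∈ B, (mz (a + b) : ℝ) ≤
        (Real.log T / Real.log ((A.card : ℝ) * B.card / (w * v)) + ε) * ((A.card : ℝ) * B.card) := by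
  obtain ⟨T1, hT13, h⟩ := gen1 hRH (δ / 2) ε (by positivity) hε
  refine ⟨T1, hT13, fun T hT A B w v hA hB hdA hdB hw hv hX => ?_⟩
  have hTpos : 0 < T := by linarith
  have hpos : 0 < (A.card : ℝ) ^ 2 * B.card := lt_of_lt_of_le (by positivity) hX
  have hAne : A.Nonempty := by
    rw [← card_pos]
    by_contra hc
    have : A.card = 0 := by omega
    rw [this] at hpos; simp at hpos
  have hBne : B.Nonempty := by
    rw [← card_pos]
    by_contra hc
    have : B.card = 0 := by omega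
    rw [this] at hpos; simp at hpos
  have hn : (0 : ℝ) < A.card := by exact_mod_cast card_pos.2 hAne
  have hm : (0 : ℝ) < B.card := by exact_mod_cast card_pos.2 hBne
  have hq : (1 + δ / 2) * Real.log T ≤ Real.log ((A.card : ℝ) / w) + Real.log ((B.card : ℝ) / v) / 2 := by
    have h1 : (2 + δ) * Real.log T ≤ Real.log ((A.card : ℝ) ^ 2 * B.card / (w ^ 2 * v)) := by
      rw [← Real.log_rpow hTpos]
      apply Real.log_le_log (by positivity)
      rw [le_div_iff₀ (by positivity), mul_comm]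
      exact hX
    have h2 : Real.log ((A.card : ℝ) ^ 2 * B.card / (w ^ 2 * v)) =
        2 * Real.log ((A.card : ℝ) / w) + Real.log ((B.card : ℝ) / v) := by
      rw [Real.log_div (by positivity) (by positivity), Real.log_mul (by positivity) (by positivity),
        Real.log_mul (by positivity) (by positivity),
        Real.log_pow, Real.log_pow, Real.log_div (by positivity) (by positivity),
        Real.log_div (by positivity) (by positivity)]
      push_cast; ring
    rw [h2] at h1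
    linarith
  rcases le_total ((A.card : ℝ) * v) (B.card * w) with hc | hc
  · have hle : Real.log ((A.card : ℝ) / w) ≤ Real.log ((B.card : ℝ) / v) := by
      apply Real.log_le_log (by positivity)
      rw [div_le_div_iff₀ hw hv]
      exact hc
    have := h T hT A B w v hA hB hdA hdB hAne hBne hc (by linarith)
    rwa [sum_product] at this
  · have h1 := h T hT B A v w hB hA hdB hdA hBne hAne hc hq
    rw [sum_product, mul_comm (B.card : ℝ), mul_comm v] at h1
    rw [sum_comm]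
    refine le_trans (le_of_eq ?_) h1
    refine sum_congr rfl fun b _ => sum_congr rfl fun a _ => ?_
    simp only [add_comm]

end Pool.Agent.H8.LI
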