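import Pool.Graph.R_seed8.H452R4.LI.MV
import Pool.Graph.R_seed8.H452R4.LI.SCH
import Pool.Graph.R_seed8.H452R4.LI.GAU

/-! The mean value theorem over integers in a dyadic block with general coefficients, its dual, and
the large sieve for the `k`-th power of a polynomial over primes. -/

set_option autoImplicit false

open Finset ArithmeticFunction MeasureTheory intervalIntegral

namespace Pool.Agent.H8.LI

open Pool.Agent.H452R4.LI

/-- `e^{-i a log n}` -/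
noncomputable def ex (a : ℝ) (n : ℕ) : ℂ := Complex.exp (-(Complex.I * ((a * Real.log n : ℝ) : ℂ)))

lemma norm_ex (a : ℝ) (n : ℕ) : ‖ex a n‖ = 1 := by
  unfold ex
  rw [show (-(Complex.I * ((a * Real.log n : ℝ) : ℂ))) = ((-(a * Real.log n) : ℝ) : ℂ) * Complex.I by
    push_cast; ring]
  exact Complex.norm_exp_ofReal_mul_I _

lemma ex_mul (a : ℝ) (m n : ℕ) (hm : m ≠ 0) (hn : n ≠ 0) : ex a (m * n) = ex a m * ex a n := by
  unfold ex
  rw [← Complex.exp_add]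
  congr 1
  rw [Nat.cast_mul, Real.log_mul (by exact_mod_cast hm) (by exact_mod_cast hn)]
  push_cast; ring

lemma ex_one (a : ℝ) : ex a 1 = 1 := by simp [ex]

lemma ex_prod {ι : Type} (a : ℝ) (s : Finset ι) (f : ι → ℕ) (hf : ∀ i ∈ s, f i ≠ 0) :
    ex a (∏ i ∈ s, f i) = ∏ i ∈ s, ex a (f i) := by
  classical
  induction s using Finset.induction_on with
  | empty => simp [ex_one]
  | insert i s hi ih =>
    rw [prod_insert hi, prod_insert hi, ex_mul, ih]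
    · intro j hj; exact hf j (mem_insert_of_mem hj)
    · exact hf i (mem_insert_self _ _)
    · exact prod_ne_zero_iff.2 fun j hj => hf j (mem_insert_of_mem hj)

/-- mean value theorem with general coefficients -/
theorem mvc : ∃ C : ℝ, 0 < C ∧ ∀ (A : Finset ℝ) (c : ℝ → ℂ) (T w : ℝ) (D : ℕ), 1 ≤ T → 1 ≤ D →
    (∀ a ∈ A, |a| ≤ T) → dens A w →
    ∑ n ∈ Ioc D (2 * D), ‖∑ a ∈ A, c a * ex a n‖ ^ 2 ≤ C * (D + T) * w * ∑ a ∈ A, ‖c a‖ ^ 2 := by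
  obtain ⟨C2, hC2, hS⟩ := sch
  obtain ⟨C1, hC1, hG⟩ := gau
  refine ⟨2 * (C1 * C2), by positivity, ?_⟩
  intro A c T w D hT hD hA hdens
  rcases A.eq_empty_or_nonempty with hAe | ⟨a0, ha0⟩
  · subst hAe
    simp
  have hw : 0 ≤ w := by
    have h := hdens a0
    exact le_trans (Nat.cast_nonneg _) h
  set g := mvS A c with hg
  set g' := mvS A (fun a => c a * (-(Complex.I * (a : ℂ)))) with hg'
  have hd : ∀ u, HasDerivAt g (g' u) u := fun u => mvS_hasDerivAt A c u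
  have hgc : Continuous g := mvS_cont _ _
  have hdc : Continuous g' := mvS_cont _ _
  have hsq : Continuous fun u => ‖g u‖ ^ 2 := hgc.norm.pow 2
  have hsq' : Continuous fun u => ‖g' u‖ ^ 2 := hdc.norm.pow 2
  have hprod : Continuous fun u => 2 * (‖g u‖ * ‖g' u‖) :=
    continuous_const.mul (hgc.norm.mul hdc.norm)
  have hEE : ∀ n : ℕ, ‖∑ a ∈ A, c a * ex a n‖ = ‖g (Real.log n)‖ := by
    intro n
    rw [hg]
    unfold mvS ex
    rfl
  have h1 : ∑ n ∈ Ioc D (2 * D), ‖∑ a ∈ A, c a * ex a n‖ ^ 2 =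
      ∑ k ∈ Ico D (2 * D), ‖g (Real.log ((k + 1 : ℕ) : ℝ))‖ ^ 2 := by
    rw [Finset.sum_Ico_add' (fun k : ℕ => ‖g (Real.log (k : ℝ))‖ ^ 2)]
    refine Finset.sum_congr ?_ fun n _ => by rw [hEE]
    ext k
    simp only [Finset.mem_Ioc, Finset.mem_Ico]
    omega
  have hcont : Continuous fun u => ((2 * D : ℝ) * ‖g u‖ ^ 2 + 2 * (‖g u‖ * ‖g' u‖)) :=
    (continuous_const.mul hsq).add hprod
  have h2 : ∑ n ∈ Ioc D (2 * D), ‖∑ a ∈ A, c a * ex a n‖ ^ 2 ≤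
      ∫ u in (Real.log (D : ℝ))..(Real.log ((2 * D : ℕ) : ℝ)),
        ((2 * D : ℝ) * ‖g u‖ ^ 2 + 2 * (‖g u‖ * ‖g' u‖)) := by
    rw [h1]
    refine le_trans (Finset.sum_le_sum fun k hk => mv_step g g' hd hdc D k hD hk) ?_
    rw [intervalIntegral.sum_integral_adjacent_intervals_Ico (a := fun k : ℕ => Real.log (k : ℝ))
      (by omega) (fun k _ => hcont.intervalIntegrable _ _)]
  have hD0 : (0 : ℝ) < D := by exact_mod_cast hD
  have hlog : Real.log ((2 * D : ℕ) : ℝ) ≤ Real.log D + 1 := by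
    push_cast
    rw [Real.log_mul (by norm_num) hD0.ne']
    have := Real.log_two_lt_d9
    linarith
  have hlog2 : Real.log (D : ℝ) ≤ Real.log ((2 * D : ℕ) : ℝ) := by
    apply Real.log_le_log hD0
    push_cast
    linarith
  set x0 := Real.log (D : ℝ) with hx0
  have h3 : ∫ u in x0..(Real.log ((2 * D : ℕ) : ℝ)),
        ((2 * D : ℝ) * ‖g u‖ ^ 2 + 2 * (‖g u‖ * ‖g' u‖)) ≤
      ∫ u in x0..(x0 + 1), ((2 * D : ℝ) * ‖g u‖ ^ 2 + 2 * (‖g u‖ * ‖g' u‖)) := by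
    rw [← intervalIntegral.integral_add_adjacent_intervals (a := x0)
      (b := Real.log ((2 * D : ℕ) : ℝ)) (c := x0 + 1)
      (hcont.intervalIntegrable _ _) (hcont.intervalIntegrable _ _)]
    have : 0 ≤ ∫ u in (Real.log ((2 * D : ℕ) : ℝ))..(x0 + 1),
        ((2 * D : ℝ) * ‖g u‖ ^ 2 + 2 * (‖g u‖ * ‖g' u‖)) :=
      intervalIntegral.integral_nonneg hlog fun x _ => by positivity
    linarith
  have hT0 : 0 < T := by linarith
  have h4 : ∫ u in x0..(x0 + 1), ((2 * D : ℝ) * ‖g u‖ ^ 2 + 2 * (‖g u‖ * ‖g' u‖)) ≤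
      ∫ u in x0..(x0 + 1), ((2 * D + T : ℝ) * ‖g u‖ ^ 2 + (1 / T) * ‖g' u‖ ^ 2) := by
    apply intervalIntegral.integral_mono_on (by linarith) (hcont.intervalIntegrable _ _)
      ((by fun_prop : Continuous fun u => ((2 * D + T : ℝ) * ‖g u‖ ^ 2 +
        (1 / T) * ‖g' u‖ ^ 2)).intervalIntegrable _ _)
    intro u _
    show (2 * D : ℝ) * ‖g u‖ ^ 2 + 2 * (‖g u‖ * ‖g' u‖) ≤
      (2 * D + T : ℝ) * ‖g u‖ ^ 2 + (1 / T) * ‖g' u‖ ^ 2
    have h5 : 2 * (‖g u‖ * ‖g' u‖) ≤ T * ‖g u‖ ^ 2 + (1 / T) * ‖g' u‖ ^ 2 := by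
      have h6 : 0 ≤ (T * ‖g u‖ - ‖g' u‖) ^ 2 / T := by positivity
      have h7 : (T * ‖g u‖ - ‖g' u‖) ^ 2 / T =
          T * ‖g u‖ ^ 2 + (1 / T) * ‖g' u‖ ^ 2 - 2 * (‖g u‖ * ‖g' u‖) := by
        field_simp
        ring
      rw [h7] at h6
      linarith
    have h7' : (2 * D + T : ℝ) * ‖g u‖ ^ 2 + (1 / T) * ‖g' u‖ ^ 2 =
        (2 * D : ℝ) * ‖g u‖ ^ 2 + (T * ‖g u‖ ^ 2 + (1 / T) * ‖g' u‖ ^ 2) := by ring
    rw [h7']
    exact add_le_add_right h5 _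
  have hsplit : ∫ u in x0..(x0 + 1), ((2 * D + T : ℝ) * ‖g u‖ ^ 2 + (1 / T) * ‖g' u‖ ^ 2) =
      (2 * D + T : ℝ) * (∫ u in x0..(x0 + 1), ‖g u‖ ^ 2) +
      (1 / T) * ∫ u in x0..(x0 + 1), ‖g' u‖ ^ 2 := by
    rw [← intervalIntegral.integral_const_mul, ← intervalIntegral.integral_const_mul]
    have hc1 : Continuous fun u => (2 * D + T : ℝ) * ‖g u‖ ^ 2 := by fun_prop
    have hc2 : Continuous fun u => (1 / T) * ‖g' u‖ ^ 2 := by fun_prop
    exact intervalIntegral.integral_add (hc1.intervalIntegrable _ _) (hc2.intervalIntegrable _ _)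
  rw [hsplit] at h4
  have hW : ∀ a ∈ A, ∑ b ∈ A, Real.exp (-(a - b) ^ 2 / 2) ≤ C2 * w := hS A w hdens
  set E := ∑ a ∈ A, ‖c a‖ ^ 2 with hE
  have hE0 : 0 ≤ E := Finset.sum_nonneg fun a _ => by positivity
  have h8 : ∫ u in x0..(x0 + 1), ‖g u‖ ^ 2 ≤ C1 * (C2 * w) * E := hG A c (C2 * w) x0 hW
  have h9 : ∫ u in x0..(x0 + 1), ‖g' u‖ ^ 2 ≤ C1 * (C2 * w) * (E * T ^ 2) := by
    have h := hG A (fun a => c a * (-(Complex.I * (a : ℂ)))) (C2 * w) x0 hW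
    refine le_trans h ?_
    apply mul_le_mul_of_nonneg_left _ (by positivity)
    rw [hE, Finset.sum_mul]
    apply Finset.sum_le_sum
    intro a ha
    rw [norm_mul, norm_neg, norm_mul, Complex.norm_I, one_mul, Complex.norm_real,
      Real.norm_eq_abs, mul_pow]
    exact mul_le_mul_of_nonneg_left (pow_le_pow_left₀ (abs_nonneg _) (hA a ha) 2) (by positivity)
  have h10 : (2 * D + T : ℝ) * (∫ u in x0..(x0 + 1), ‖g u‖ ^ 2) ≤
      (2 * D + T) * (C1 * (C2 * w) * E) :=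
    mul_le_mul_of_nonneg_left h8 (by positivity)
  have h11 : (1 / T) * (∫ u in x0..(x0 + 1), ‖g' u‖ ^ 2) ≤
      (1 / T) * (C1 * (C2 * w) * (E * T ^ 2)) :=
    mul_le_mul_of_nonneg_left h9 (by positivity)
  have h12 : (1 / T) * (C1 * (C2 * w) * (E * T ^ 2)) = T * (C1 * (C2 * w) * E) := by
    field_simp
  calc ∑ n ∈ Ioc D (2 * D), ‖∑ a ∈ A, c a * ex a n‖ ^ 2
      ≤ (2 * D + T) * (C1 * (C2 * w) * E) + T * (C1 * (C2 * w) * E) := by
        rw [h12] at h11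
        linarith
    _ = 2 * (C1 * C2) * (D + T) * w * E := by ring

/-- the dual: large sieve over a dyadic block -/
theorem dual : ∃ C : ℝ, 0 < C ∧ ∀ (A : Finset ℝ) (T w : ℝ) (D : ℕ) (b : ℕ → ℂ), 1 ≤ T → 1 ≤ D →
    (∀ a ∈ A, |a| ≤ T) → dens A w →
    ∑ a ∈ A, ‖∑ n ∈ Ioc D (2 * D), b n * ex a n‖ ^ 2 ≤
      C * (D + T) * w * ∑ n ∈ Ioc D (2 * D), ‖b n‖ ^ 2 := by
  obtain ⟨C, hC, h⟩ := mvc
  refine ⟨C, hC, ?_⟩
  intro A T w D b hT hD hA hdens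
  rcases A.eq_empty_or_nonempty with hAe | ⟨a0, ha0⟩
  · subst hAe
    simp only [Finset.sum_empty]
    have hw : 0 ≤ w := le_trans (Nat.cast_nonneg _) (hdens 0)
    have : 0 ≤ ∑ n ∈ Ioc D (2 * D), ‖b n‖ ^ 2 := Finset.sum_nonneg fun _ _ => by positivity
    positivity
  have hw : 0 ≤ w := le_trans (Nat.cast_nonneg _) (hdens a0)
  set S : ℝ → ℂ := fun a => ∑ n ∈ Ioc D (2 * D), b n * ex a n with hS
  set X := ∑ a ∈ A, ‖S a‖ ^ 2 with hX
  set Bq := ∑ n ∈ Ioc D (2 * D), ‖b n‖ ^ 2 with hBq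
  set Δ := C * (D + T) * w with hΔ
  have hX0 : 0 ≤ X := Finset.sum_nonneg fun _ _ => by positivity
  have hB0 : 0 ≤ Bq := Finset.sum_nonneg fun _ _ => by positivity
  have hΔ0 : 0 ≤ Δ := by positivity
  have h1 := h A (fun a => (starRingEnd ℂ) (S a)) T w D hT hD hA hdens
  have h2 : ∑ a ∈ A, ‖(starRingEnd ℂ) (S a)‖ ^ 2 = X := by
    simp only [RCLike.norm_conj]; rfl
  rw [h2] at h1
  have h3 : (X : ℂ) = ∑ n ∈ Ioc D (2 * D), b n * ∑ a ∈ A, (starRingEnd ℂ) (S a) * ex a n := by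
    rw [hX]
    push_cast
    have : ∀ a ∈ A, ((‖S a‖ : ℂ)) ^ 2 = ∑ n ∈ Ioc D (2 * D), b n * ((starRingEnd ℂ) (S a) * ex a n) := by
      intro a _
      rw [← Complex.mul_conj']
      conv_lhs => rw [hS]
      simp only
      rw [Finset.sum_mul]
      refine Finset.sum_congr rfl fun n _ => ?_
      ring
    rw [Finset.sum_congr rfl this, Finset.sum_comm]
    refine Finset.sum_congr rfl fun n _ => ?_
    rw [Finset.mul_sum]
  have h4 : X ≤ ∑ n ∈ Ioc D (2 * D), ‖b n‖ * ‖∑ a ∈ A, (starRingEnd ℂ) (S a) * ex a n‖ := by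
    have h5 : X = ‖(X : ℂ)‖ := by rw [Complex.norm_real, Real.norm_of_nonneg hX0]
    rw [h5, h3]
    refine (norm_sum_le _ _).trans (Finset.sum_le_sum fun n _ => ?_)
    rw [norm_mul]
  have h6 : (∑ n ∈ Ioc D (2 * D), ‖b n‖ * ‖∑ a ∈ A, (starRingEnd ℂ) (S a) * ex a n‖) ^ 2 ≤
      Bq * ∑ n ∈ Ioc D (2 * D), ‖∑ a ∈ A, (starRingEnd ℂ) (S a) * ex a n‖ ^ 2 :=
    Finset.sum_mul_sq_le_sq_mul_sq _ _ _
  have h7 : X ^ 2 ≤ Bq * (Δ * X) := by
    calc X ^ 2 ≤ (∑ n ∈ Ioc D (2 * D), ‖b n‖ * ‖∑ a ∈ A, (starRingEnd ℂ) (S a) * ex a n‖) ^ 2 :=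
          pow_le_pow_left₀ hX0 h4 2
      _ ≤ _ := h6
      _ ≤ Bq * (Δ * X) := mul_le_mul_of_nonneg_left h1 hB0
  rcases hX0.eq_or_lt with h8 | h8
  · show X ≤ Δ * Bq
    rw [← h8]; positivity
  · have h9 : X * X ≤ (Δ * Bq) * X := by nlinarith
    exact le_of_mul_le_mul_right h9 h8

end Pool.Agent.H8.LI
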