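import Pool.Agent.H8.LI.KP

/-! The large sieve for the `k`-th power of a polynomial over the primes of a dyadic block. -/

set_option autoImplicit false

open Finset

namespace Pool.Agent.H8.LI

open Pool.Agent.H452R4.LI

/-- primes in `(D, 2D]` -/
noncomputable def PD (D : ℕ) : Finset ℕ := (Ioc D (2 * D)).filter Nat.Prime

lemma fiber_card (k : ℕ) (s : Finset ℕ) (hs : ∀ p ∈ s, Nat.Prime p) (n : ℕ) :
    ((Fintype.piFinset (fun _ : Fin k => s)).filter (fun f => ∏ i, f i = n)).card ≤ k.factorial := by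
  classical
  by_cases hne : ((Fintype.piFinset (fun _ : Fin k => s)).filter (fun f => ∏ i, f i = n)).Nonempty
  swap
  · rw [not_nonempty_iff_eq_empty.1 hne]; simp
  have hperm : ∀ f ∈ (Fintype.piFinset (fun _ : Fin k => s)).filter (fun f => ∏ i, f i = n),
      (List.ofFn f).Perm n.primeFactorsList := by
    intro f hf
    rw [mem_filter, Fintype.mem_piFinset] at hf
    apply Nat.primeFactorsList_unique
    · rw [List.prod_ofFn]; exact hf.2
    · intro p hp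
      rw [List.mem_ofFn] at hp
      obtain ⟨i, rfl⟩ := hp
      exact hs _ (hf.1 i)
  obtain ⟨f0, hf0⟩ := hne
  have hlen : n.primeFactorsList.length = k := by
    rw [← (hperm f0 hf0).length_eq, List.length_ofFn]
  calc ((Fintype.piFinset (fun _ : Fin k => s)).filter (fun f => ∏ i, f i = n)).card
      ≤ (n.primeFactorsList.permutations.toFinset).card := by
        apply card_le_card_of_injOn (fun f => List.ofFn f)
        · intro f hf
          have h := hperm f (by simpa using hf)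
          simp only [List.coe_toFinset]
          exact (List.mem_permutations).2 h
        · intro f _ g _ h
          exact List.ofFn_injective h
    _ ≤ n.primeFactorsList.permutations.length := List.toFinset_card_le _
    _ = k.factorial := by rw [List.length_permutations, hlen]

lemma dyad {M : Type} [AddCommMonoid M] (f : ℕ → M) (m k : ℕ) (_hm : 1 ≤ m) :
    ∑ n ∈ Ioc m (2 ^ k * m), f n =
      ∑ j ∈ range k, ∑ n ∈ Ioc (2 ^ j * m) (2 * (2 ^ j * m)), f n := by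
  induction k with
  | zero => simp
  | succ k ih =>
    rw [sum_range_succ, ← ih]
    have h1 : m ≤ 2 ^ k * m := Nat.le_mul_of_pos_left _ (by positivity)
    have h2 : 2 ^ k * m ≤ 2 ^ (k + 1) * m := by
      apply Nat.mul_le_mul_right
      exact Nat.pow_le_pow_right (by norm_num) (by omega)
    rw [show 2 * (2 ^ k * m) = 2 ^ (k + 1) * m by ring]
    rw [← Finset.sum_Ioc_consecutive _ h1 h2]

/-- large sieve over a long block -/
theorem long : ∃ C : ℝ, 0 < C ∧ ∀ (A : Finset ℝ) (T w : ℝ) (m k : ℕ) (b : ℕ → ℂ), 1 ≤ T → 1 ≤ m →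
    (∀ a ∈ A, |a| ≤ T) → dens A w →
    ∑ a ∈ A, ‖∑ n ∈ Ioc m (2 ^ k * m), b n * ex a n‖ ^ 2 ≤
      C * k * ((2 : ℝ) ^ k * m + T) * w * ∑ n ∈ Ioc m (2 ^ k * m), ‖b n‖ ^ 2 := by
  obtain ⟨C, hC, h⟩ := dual
  refine ⟨C, hC, ?_⟩
  intro A T w m k b hT hm hA hdens
  rcases A.eq_empty_or_nonempty with hAe | ⟨a0, ha0⟩
  · subst hAe
    simp only [Finset.sum_empty]
    have hw : 0 ≤ w := le_trans (Nat.cast_nonneg _) (hdens 0)
    have : 0 ≤ ∑ n ∈ Ioc m (2 ^ k * m), ‖b n‖ ^ 2 := Finset.sum_nonneg fun _ _ => by positivity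
    positivity
  have hw : 0 ≤ w := le_trans (Nat.cast_nonneg _) (hdens a0)
  have h1 : ∀ a ∈ A, ‖∑ n ∈ Ioc m (2 ^ k * m), b n * ex a n‖ ^ 2 ≤
      k * ∑ j ∈ range k, ‖∑ n ∈ Ioc (2 ^ j * m) (2 * (2 ^ j * m)), b n * ex a n‖ ^ 2 := by
    intro a _
    rw [dyad _ m k hm]
    calc ‖∑ j ∈ range k, ∑ n ∈ Ioc (2 ^ j * m) (2 * (2 ^ j * m)), b n * ex a n‖ ^ 2
        ≤ (∑ j ∈ range k, ‖∑ n ∈ Ioc (2 ^ j * m) (2 * (2 ^ j * m)), b n * ex a n‖) ^ 2 :=
          pow_le_pow_left₀ (norm_nonneg _) (norm_sum_le _ _) 2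
      _ ≤ ((range k).card : ℝ) * ∑ j ∈ range k, ‖∑ n ∈ Ioc (2 ^ j * m) (2 * (2 ^ j * m)), b n * ex a n‖ ^ 2 :=
          sq_sum_le_card_mul_sum_sq
      _ = _ := by rw [card_range]
  calc ∑ a ∈ A, ‖∑ n ∈ Ioc m (2 ^ k * m), b n * ex a n‖ ^ 2
      ≤ ∑ a ∈ A, (k : ℝ) * ∑ j ∈ range k, ‖∑ n ∈ Ioc (2 ^ j * m) (2 * (2 ^ j * m)), b n * ex a n‖ ^ 2 :=
        sum_le_sum h1
    _ = (k : ℝ) * ∑ j ∈ range k, ∑ a ∈ A, ‖∑ n ∈ Ioc (2 ^ j * m) (2 * (2 ^ j * m)), b n * ex a n‖ ^ 2 := by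
        rw [← mul_sum, sum_comm]
    _ ≤ (k : ℝ) * ∑ j ∈ range k, (C * ((2 : ℝ) ^ k * m + T) * w *
          ∑ n ∈ Ioc (2 ^ j * m) (2 * (2 ^ j * m)), ‖b n‖ ^ 2) := by
        apply mul_le_mul_of_nonneg_left _ (Nat.cast_nonneg _)
        apply sum_le_sum
        intro j hj
        have hj1 : 1 ≤ 2 ^ j * m := Nat.one_le_iff_ne_zero.2 (by positivity)
        refine (h A T w (2 ^ j * m) b hT hj1 hA hdens).trans ?_
        have h2 : (0 : ℝ) ≤ ∑ n ∈ Ioc (2 ^ j * m) (2 * (2 ^ j * m)), ‖b n‖ ^ 2 :=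
          sum_nonneg fun _ _ => by positivity
        have h3 : (((2 ^ j * m : ℕ) : ℝ)) ≤ (2 : ℝ) ^ k * m := by
          push_cast
          apply mul_le_mul_of_nonneg_right _ (Nat.cast_nonneg _)
          exact pow_le_pow_right₀ (by norm_num) (le_of_lt (mem_range.1 hj))
        gcongr
    _ = C * k * ((2 : ℝ) ^ k * m + T) * w * ∑ n ∈ Ioc m (2 ^ k * m), ‖b n‖ ^ 2 := by
        rw [dyad _ m k hm, ← mul_sum]; ring

/-- the `2k`-th moment of a polynomial over primes -/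
theorem kpow : ∃ C : ℝ, 0 < C ∧ ∀ (A : Finset ℝ) (T w : ℝ) (D k : ℕ) (c : ℕ → ℂ), 1 ≤ T → 1 ≤ D →
    (∀ a ∈ A, |a| ≤ T) → dens A w →
    ∑ a ∈ A, ‖∑ p ∈ PD D, c p * ex a p‖ ^ (2 * k) ≤
      C * k * ((2 * D : ℝ) ^ k + T) * w * (k.factorial * (∑ p ∈ PD D, ‖c p‖ ^ 2) ^ k) + 
        (if k = 0 then (A.card : ℝ) else 0) := by
  classical
  obtain ⟨C, hC, h⟩ := long
  refine ⟨C, hC, ?_⟩
  intro A T w D k c hT hD hA hdens
  rcases Nat.eq_zero_or_pos k with hk | hk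
  · subst hk; simp
  rw [if_neg hk.ne', add_zero]
  rcases A.eq_empty_or_nonempty with hAe | ⟨a0, ha0⟩
  · subst hAe
    simp only [Finset.sum_empty]
    have hw : 0 ≤ w := le_trans (Nat.cast_nonneg _) (hdens 0)
    have : 0 ≤ ∑ p ∈ PD D, ‖c p‖ ^ 2 := Finset.sum_nonneg fun _ _ => by positivity
    positivity
  have hw : 0 ≤ w := le_trans (Nat.cast_nonneg _) (hdens a0)
  set F := Fintype.piFinset (fun _ : Fin k => PD D) with hF
  set b : ℕ → ℂ := fun n => ∑ f ∈ F.filter (fun f => ∏ i, f i = n), ∏ i, c (f i) with hb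
  have hmaps : ∀ f ∈ F, ∏ i, f i ∈ Ioc (D ^ k) (2 ^ k * D ^ k) := by
    intro f hf
    rw [hF, Fintype.mem_piFinset] at hf
    rw [mem_Ioc]
    have h1 : ∀ i, D < f i ∧ f i ≤ 2 * D := fun i => by
      have := hf i
      rw [PD, mem_filter, mem_Ioc] at this
      exact this.1
    constructor
    · have : Nonempty (Fin k) := ⟨⟨0, hk⟩⟩
      calc D ^ k = ∏ _i : Fin k, D := by simp
        _ < ∏ i, f i := prod_lt_prod_of_nonempty (fun _ _ => by omega) (fun i _ => (h1 i).1)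
            univ_nonempty
    · calc ∏ i, f i ≤ ∏ _i : Fin k, (2 * D) := prod_le_prod' fun i _ => (h1 i).2
        _ = 2 ^ k * D ^ k := by simp [mul_pow]
  have hexp : ∀ a, (∑ p ∈ PD D, c p * ex a p) ^ k =
      ∑ n ∈ Ioc (D ^ k) (2 ^ k * D ^ k), b n * ex a n := by
    intro a
    have e1 : (∑ p ∈ PD D, c p * ex a p) ^ k = ∑ f ∈ F, ∏ i, (c (f i) * ex a (f i)) := by
      have := prod_univ_sum (fun _ : Fin k => PD D) (fun (_ : Fin k) p => c p * ex a p)
      rw [hF, ← this]; simp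
    rw [e1, ← sum_fiberwise_of_maps_to hmaps]
    refine sum_congr rfl fun n _ => ?_
    rw [hb]
    simp only
    rw [sum_mul]
    refine sum_congr rfl fun f hf => ?_
    rw [mem_filter] at hf
    rw [prod_mul_distrib]
    congr 1
    rw [← hf.2, ex_prod]
    intro i _
    have := hf.1
    rw [hF, Fintype.mem_piFinset] at this
    have h2 := this i
    rw [PD, mem_filter] at h2
    exact h2.2.ne_zero
  have hbn : ∑ n ∈ Ioc (D ^ k) (2 ^ k * D ^ k), ‖b n‖ ^ 2 ≤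
      k.factorial * (∑ p ∈ PD D, ‖c p‖ ^ 2) ^ k := by
    have e2 : (∑ p ∈ PD D, ‖c p‖ ^ 2) ^ k = ∑ f ∈ F, ∏ i, ‖c (f i)‖ ^ 2 := by
      have := prod_univ_sum (fun _ : Fin k => PD D) (fun (_ : Fin k) p => ‖c p‖ ^ 2)
      rw [hF, ← this]; simp
    rw [e2, ← sum_fiberwise_of_maps_to hmaps, mul_sum]
    apply sum_le_sum
    intro n _
    rw [hb]
    simp only
    calc ‖∑ f ∈ F.filter (fun f => ∏ i, f i = n), ∏ i, c (f i)‖ ^ 2
        ≤ (∑ f ∈ F.filter (fun f => ∏ i, f i = n), ‖∏ i, c (f i)‖) ^ 2 :=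
          pow_le_pow_left₀ (norm_nonneg _) (norm_sum_le _ _) 2
      _ ≤ ((F.filter (fun f => ∏ i, f i = n)).card : ℝ) *
            ∑ f ∈ F.filter (fun f => ∏ i, f i = n), ‖∏ i, c (f i)‖ ^ 2 := sq_sum_le_card_mul_sum_sq
      _ ≤ (k.factorial : ℝ) * ∑ f ∈ F.filter (fun f => ∏ i, f i = n), ∏ i, ‖c (f i)‖ ^ 2 := by
          have h3 : ((F.filter (fun f => ∏ i, f i = n)).card : ℝ) ≤ k.factorial := by
            exact_mod_cast fiber_card k (PD D) (fun p hp => (mem_filter.1 hp).2) n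
          have h4 : ∑ f ∈ F.filter (fun f => ∏ i, f i = n), ‖∏ i, c (f i)‖ ^ 2 =
              ∑ f ∈ F.filter (fun f => ∏ i, f i = n), ∏ i, ‖c (f i)‖ ^ 2 := by
            refine sum_congr rfl fun f _ => ?_
            rw [norm_prod, prod_pow]
          rw [h4]
          exact mul_le_mul_of_nonneg_right h3 (sum_nonneg fun _ _ => prod_nonneg fun _ _ => by positivity)
  have hDk : 1 ≤ D ^ k := Nat.one_le_pow _ _ hD
  calc ∑ a ∈ A, ‖∑ p ∈ PD D, c p * ex a p‖ ^ (2 * k)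
      = ∑ a ∈ A, ‖∑ n ∈ Ioc (D ^ k) (2 ^ k * D ^ k), b n * ex a n‖ ^ 2 := by
        refine sum_congr rfl fun a _ => ?_
        rw [← hexp a, norm_pow, ← pow_mul, mul_comm]
    _ ≤ C * k * ((2 : ℝ) ^ k * (D ^ k : ℕ) + T) * w * ∑ n ∈ Ioc (D ^ k) (2 ^ k * D ^ k), ‖b n‖ ^ 2 :=
        h A T w (D ^ k) k b hT hDk hA hdens
    _ ≤ C * k * ((2 : ℝ) ^ k * (D ^ k : ℕ) + T) * w *
          (k.factorial * (∑ p ∈ PD D, ‖c p‖ ^ 2) ^ k) := by
        apply mul_le_mul_of_nonneg_left hbn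
        positivity
    _ = _ := by
        push_cast
        rw [mul_pow]

/-- the sum over the primes of a block of `|Â(p)|²` -/
noncomputable def VV (A : Finset ℝ) (D : ℕ) : ℝ := ∑ p ∈ PD D, ‖∑ a ∈ A, ex a p‖ ^ 2

lemma VV_nonneg (A : Finset ℝ) (D : ℕ) : 0 ≤ VV A D := sum_nonneg fun _ _ => by positivity

theorem kp : ∃ C : ℝ, 1 ≤ C ∧ ∀ (A : Finset ℝ) (T w : ℝ) (D k : ℕ), 1 ≤ T → 1 ≤ D → 1 ≤ k →
    (∀ a ∈ A, |a| ≤ T) → dens A w →
    VV A D ^ k * A.card ≤ (A.card : ℝ) ^ (2 * k) * (C * k * k.factorial * ((2 * D : ℝ) ^ k + T) * w) := by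
  obtain ⟨C, hC, h⟩ := kpow
  refine ⟨C + 1, by linarith, ?_⟩
  intro A T w D k hT hD hk hA hdens
  rcases A.eq_empty_or_nonempty with hAe | hAne
  · subst hAe
    simp only [card_empty, Nat.cast_zero, mul_zero]
    have hw : 0 ≤ w := le_trans (Nat.cast_nonneg _) (hdens 0)
    positivity
  have hw : 0 ≤ w := le_trans (Nat.cast_nonneg _) (hdens 0)
  set V := VV A D with hV
  have hV0 : 0 ≤ V := VV_nonneg A D
  set c : ℕ → ℂ := fun p => (starRingEnd ℂ) (∑ a ∈ A, ex a p) with hc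
  have h1 := h A T w D k c hT hD hA hdens
  rw [if_neg (by omega), add_zero] at h1
  have h2 : ∑ p ∈ PD D, ‖c p‖ ^ 2 = V := by
    simp only [hc, RCLike.norm_conj]; rfl
  rw [h2] at h1
  have h3 : (V : ℂ) = ∑ a ∈ A, ∑ p ∈ PD D, c p * ex a p := by
    rw [sum_comm, hV, VV]
    push_cast
    refine sum_congr rfl fun p _ => ?_
    rw [← mul_sum, ← Complex.conj_mul']
  have h4 : V ≤ ∑ a ∈ A, ‖∑ p ∈ PD D, c p * ex a p‖ := by
    have h5 : V = ‖(V : ℂ)‖ := by rw [Complex.norm_real, Real.norm_of_nonneg hV0]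
    rw [h5, h3]
    exact norm_sum_le _ _
  have hn : (0 : ℝ) < A.card := by exact_mod_cast card_pos.2 hAne
  have h5 : V ^ (2 * k) / (A.card : ℝ) ^ (2 * k - 1) ≤ ∑ a ∈ A, ‖∑ p ∈ PD D, c p * ex a p‖ ^ (2 * k) := by
    have h6 := pow_sum_div_card_le_sum_pow (s := A) (f := fun a => ‖∑ p ∈ PD D, c p * ex a p‖)
      (fun _ _ => norm_nonneg _) (2 * k - 1)
    rw [show 2 * k - 1 + 1 = 2 * k by omega] at h6
    refine le_trans ?_ h6
    gcongr
  have h7 := h5.trans h1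
  rw [div_le_iff₀ (by positivity)] at h7
  rcases hV0.eq_or_lt with h8 | h8
  · rw [← h8, zero_pow (by omega), zero_mul]
    positivity
  have h9 : V ^ k * V ^ k ≤ (C * k * ((2 * D : ℝ) ^ k + T) * w * k.factorial * (A.card : ℝ) ^ (2 * k - 1)) * V ^ k := by
    calc V ^ k * V ^ k = V ^ (2 * k) := by rw [two_mul, pow_add]
      _ ≤ _ := h7
      _ = _ := by ring
  have h10 := le_of_mul_le_mul_right h9 (by positivity)
  calc V ^ k * A.card ≤ (C * k * ((2 * D : ℝ) ^ k + T) * w * k.factorial * (A.card : ℝ) ^ (2 * k - 1)) * A.card :=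
        mul_le_mul_of_nonneg_right h10 hn.le
    _ = (A.card : ℝ) ^ (2 * k) * (C * k * k.factorial * ((2 * D : ℝ) ^ k + T) * w) := by
        rw [show (A.card : ℝ) ^ (2 * k) = (A.card : ℝ) ^ (2 * k - 1) * A.card by
          rw [← pow_succ]; congr 1; omega]
        ring
    _ ≤ _ := by
        gcongr
        linarith

end Pool.Agent.H8.LI
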