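import Pool.Agent.H8.LI.KP2
import Pool.Graph.R_seed8.H452R4.LI.PES
import Pool.Graph.R_seed8.H345R2.AP.Tail

/-! Bilinear prime sums over two sparse sets: the dyadic block. -/

set_option autoImplicit false

open Finset ArithmeticFunction

namespace Pool.Agent.H8.LI

open Pool.Agent.H452R4.LI

lemma EE_eq (A : Finset ℝ) (n : ℕ) : EE A n = ‖∑ a ∈ A, ex a n‖ := rfl

lemma EE_nonneg (A : Finset ℝ) (n : ℕ) : 0 ≤ EE A n := norm_nonneg _

lemma EE_le (A : Finset ℝ) (n : ℕ) : EE A n ≤ A.card := by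
  rw [EE_eq]
  refine (norm_sum_le _ _).trans ?_
  simp only [norm_ex, sum_const, nsmul_eq_mul, mul_one, le_refl]

/-- the bilinear sum over the primes of a block -/
noncomputable def WW (A B : Finset ℝ) (D : ℕ) : ℝ := ∑ p ∈ PD D, EE A p * EE B p

lemma WW_nonneg (A B : Finset ℝ) (D : ℕ) : 0 ≤ WW A B D :=
  sum_nonneg fun _ _ => mul_nonneg (EE_nonneg _ _) (EE_nonneg _ _)

lemma WW_sq (A B : Finset ℝ) (D : ℕ) : WW A B D ^ 2 ≤ VV A D * VV B D :=
  Finset.sum_mul_sq_le_sq_mul_sq _ _ _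

lemma dens_one_le {A : Finset ℝ} {w : ℝ} (h : dens A w) (hA : A.Nonempty) : 1 ≤ w := by
  obtain ⟨a, ha⟩ := hA
  have h1 := h a
  have h2 : 1 ≤ (A.filter (fun b => a ≤ b ∧ b < a + 1)).card := by
    apply card_pos.2
    exact ⟨a, mem_filter.2 ⟨ha, le_refl _, by linarith⟩⟩
  have h3 : (1 : ℝ) ≤ ((A.filter (fun b => a ≤ b ∧ b < a + 1)).card : ℝ) := by exact_mod_cast h2
  linarith

theorem vblk : ∃ C : ℝ, 1 ≤ C ∧ ∀ (A : Finset ℝ) (T w : ℝ) (D k : ℕ), 1 ≤ T → 1 ≤ D → 1 ≤ k →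
    (∀ a ∈ A, |a| ≤ T) → dens A w → A.Nonempty →
    VV A D ≤ (A.card : ℝ) ^ 2 * (C * k * Real.exp (max (Real.log D) (Real.log T / k) -
      Real.log ((A.card : ℝ) / w) / k)) := by
  obtain ⟨C, hC, h⟩ := kp
  refine ⟨8 * C, by linarith, ?_⟩
  intro A T w D k hT hD hk hA hdA hAne
  have hw1 : 1 ≤ w := dens_one_le hdA hAne
  have hw : 0 < w := by linarith
  have hn : (0 : ℝ) < A.card := by exact_mod_cast card_pos.2 hAne
  set n : ℝ := (A.card : ℝ) with hnd
  set m : ℝ := max (Real.log D) (Real.log T / k) with hmdef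
  have hk0 : (0 : ℝ) < k := by exact_mod_cast hk
  set K : ℝ := C * k * k.factorial * ((2 * D : ℝ) ^ k + T) with hK
  have hK0 : 0 < K := by positivity
  have hD0 : (0 : ℝ) < D := by exact_mod_cast hD
  have hA1 := h A T w D k hT hD hk hA hdA
  have hV0 := VV_nonneg A D
  -- K bound
  have hKb : K ≤ (8 * C * k * Real.exp m) ^ k := by
    have e1 : C ≤ C ^ k := le_self_pow₀ hC (by omega)
    have e2 : (k : ℝ) ≤ 2 ^ k := by
      exact_mod_cast (Nat.lt_two_pow_self (n := k)).le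
    have e3 : (k.factorial : ℝ) ≤ (k : ℝ) ^ k := by exact_mod_cast Nat.factorial_le_pow k
    have e4 : (2 * D : ℝ) ^ k + T ≤ 4 ^ k * Real.exp m ^ k := by
      have f1 : (D : ℝ) ≤ Real.exp m := by
        rw [← Real.log_le_iff_le_exp hD0]; exact le_max_left _ _
      have f2 : T ≤ Real.exp m ^ k := by
        rw [← Real.exp_nat_mul, ← Real.log_le_iff_le_exp (by linarith)]
        have : Real.log T / k ≤ m := le_max_right _ _
        rw [div_le_iff₀ hk0] at this
        linarith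
      have f3 : (2 * D : ℝ) ^ k ≤ 2 ^ k * Real.exp m ^ k := by
        rw [mul_pow]
        gcongr
      have f4 : (2 : ℝ) ^ k + 1 ≤ 4 ^ k := by
        have : (2 : ℝ) ≤ 2 ^ k := by
          calc (2 : ℝ) = 2 ^ 1 := by norm_num
            _ ≤ 2 ^ k := pow_le_pow_right₀ (by norm_num) hk
        have e : (4 : ℝ) ^ k = 2 ^ k * 2 ^ k := by rw [← mul_pow]; norm_num
        rw [e]; nlinarith
      have f5 : 0 < Real.exp m ^ k := by positivity
      nlinarith
    calc K = C * k * k.factorial * ((2 * D : ℝ) ^ k + T) := rfl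
      _ ≤ C ^ k * 2 ^ k * (k : ℝ) ^ k * (4 ^ k * Real.exp m ^ k) := by
          gcongr
      _ = (8 * C * k * Real.exp m) ^ k := by
          rw [mul_pow, mul_pow, mul_pow, show (8 : ℝ) = 2 * 4 by norm_num, mul_pow]; ring
  set y : ℝ := 8 * C * k * Real.exp (m - Real.log (n / w) / k) with hy
  have hy0 : 0 < y := by positivity
  have h2 : y ^ k * n = (8 * C * k * Real.exp m) ^ k * w := by
    have e1 : y = 8 * C * k * Real.exp m * Real.exp (-(Real.log (n / w) / k)) := by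
      rw [hy, sub_eq_add_neg, Real.exp_add]; ring
    have e2 : Real.exp (-(Real.log (n / w) / k)) ^ k = w / n := by
      rw [← Real.exp_nat_mul]
      have : (k : ℝ) * -(Real.log (n / w) / k) = -Real.log (n / w) := by
        field_simp
      rw [this, Real.exp_neg, Real.exp_log (by positivity), inv_div]
    rw [e1, mul_pow, e2]
    field_simp
  have h3 : VV A D ^ k ≤ (n ^ 2 * y) ^ k := by
    have h4 : VV A D ^ k * n ≤ (n ^ 2 * y) ^ k * n := by
      calc VV A D ^ k * n ≤ n ^ (2 * k) * (K * w) := hA1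
        _ ≤ n ^ (2 * k) * ((8 * C * k * Real.exp m) ^ k * w) := by gcongr
        _ = n ^ (2 * k) * (y ^ k * n) := by rw [h2]
        _ = (n ^ 2 * y) ^ k * n := by rw [mul_pow (n ^ 2) y k, ← pow_mul]; ring
    exact le_of_mul_le_mul_right h4 hn
  exact (pow_le_pow_iff_left₀ hV0 (by positivity) (by omega)).1 h3

theorem wblk : ∃ C : ℝ, 1 ≤ C ∧ ∀ (A B : Finset ℝ) (T w v : ℝ) (D k l : ℕ), 1 ≤ T → 1 ≤ D → 1 ≤ k →
    k ≤ l → (∀ a ∈ A, |a| ≤ T) → (∀ b ∈ B, |b| ≤ T) → dens A w → dens B v → A.Nonempty →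
    B.Nonempty →
    WW A B D ≤ ((A.card : ℝ) * B.card) * (C * l * Real.exp (
      (max (Real.log D) (Real.log T / k) - Real.log ((A.card : ℝ) / w) / k +
      (max (Real.log D) (Real.log T / l) - Real.log ((B.card : ℝ) / v) / l)) / 2)) := by
  obtain ⟨C, hC, h⟩ := vblk
  refine ⟨C, hC, ?_⟩
  intro A B T w v D k l hT hD hk hkl hA hB hdA hdB hAne hBne
  have h1 := h A T w D k hT hD hk hA hdA hAne
  have h2 := h B T v D l hT hD (hk.trans hkl) hB hdB hBne
  set x := max (Real.log D) (Real.log T / k) - Real.log ((A.card : ℝ) / w) / k with hx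
  set y := max (Real.log D) (Real.log T / l) - Real.log ((B.card : ℝ) / v) / l with hy
  have hk0 : (0 : ℝ) < k := by exact_mod_cast hk
  have hl0 : (0 : ℝ) < l := by exact_mod_cast hk.trans hkl
  have hkl' : (k : ℝ) ≤ l := by exact_mod_cast hkl
  have hn : (0 : ℝ) < A.card := by exact_mod_cast card_pos.2 hAne
  have hm : (0 : ℝ) < B.card := by exact_mod_cast card_pos.2 hBne
  have hr0 : 0 ≤ ((A.card : ℝ) * B.card) * (C * l * Real.exp ((x + y) / 2)) := by positivity
  apply abs_le_of_sq_le_sq' _ hr0 |>.2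
  calc WW A B D ^ 2 ≤ VV A D * VV B D := WW_sq A B D
    _ ≤ ((A.card : ℝ) ^ 2 * (C * k * Real.exp x)) * ((B.card : ℝ) ^ 2 * (C * l * Real.exp y)) :=
        mul_le_mul h1 h2 (VV_nonneg _ _) (by positivity)
    _ ≤ ((A.card : ℝ) ^ 2 * (C * l * Real.exp x)) * ((B.card : ℝ) ^ 2 * (C * l * Real.exp y)) := by
        gcongr
    _ = (((A.card : ℝ) * B.card) * (C * l * Real.exp ((x + y) / 2))) ^ 2 := by
        have : Real.exp ((x + y) / 2) ^ 2 = Real.exp x * Real.exp y := by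
          rw [← Real.exp_add, ← Real.exp_nat_mul]; congr 1; push_cast; ring
        rw [mul_pow, mul_pow _ (Real.exp _), this]; ring

/-- doubled set -/
noncomputable def dbl (A : Finset ℝ) : Finset ℝ := A.image (fun a => 2 * a)

lemma dbl_inj : Function.Injective (fun a : ℝ => 2 * a) := fun a b h => by
  simp only at h; linarith

lemma dbl_card (A : Finset ℝ) : (dbl A).card = A.card := card_image_of_injective _ dbl_inj

lemma dbl_EE (A : Finset ℝ) (p : ℕ) : EE (dbl A) p = EE A (p ^ 2) := by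
  rw [EE_eq, EE_eq, dbl, sum_image (fun a _ b _ h => dbl_inj h)]
  congr 1
  refine sum_congr rfl fun a _ => ?_
  unfold ex
  congr 1
  rw [Nat.cast_pow, Real.log_pow]
  push_cast; ring

lemma dbl_dens {A : Finset ℝ} {w : ℝ} (h : dens A w) : dens (dbl A) w := by
  intro x
  refine le_trans ?_ (h (x / 2))
  have : ((dbl A).filter (fun a => x ≤ a ∧ a < x + 1)) ⊆
      (A.filter (fun a => x / 2 ≤ a ∧ a < x / 2 + 1)).image (fun a => 2 * a) := by
    intro b hb
    rw [mem_filter, dbl, mem_image] at hb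
    obtain ⟨⟨a, ha, rfl⟩, h1, h2⟩ := hb
    rw [mem_image]
    exact ⟨a, mem_filter.2 ⟨ha, by linarith, by linarith⟩, rfl⟩
  have h1 := (card_le_card this).trans card_image_le
  exact_mod_cast h1

lemma dbl_bd {A : Finset ℝ} {T : ℝ} (h : ∀ a ∈ A, |a| ≤ T) : ∀ a ∈ dbl A, |a| ≤ 2 * T := by
  intro b hb
  rw [dbl, mem_image] at hb
  obtain ⟨a, ha, rfl⟩ := hb
  rw [abs_mul, abs_two]
  linarith [h a ha]

end Pool.Agent.H8.LI
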