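import Pool.Agent.H8.LI.PS

/-! Bilinear prime sums over two sparse sets: prime powers and the sum over the blocks. -/

set_option autoImplicit false

open Finset ArithmeticFunction

namespace Pool.Agent.H8.LI

open Pool.Agent.H452R4.LI
open Pool.Agent.H345R2.AP (SS SS_nonneg)

lemma sum_union_le {s t : Finset ℕ} (f : ℕ → ℝ) (hf : ∀ n, 0 ≤ f n) :
    ∑ n ∈ s ∪ t, f n ≤ ∑ n ∈ s, f n + ∑ n ∈ t, f n := by
  rw [← sum_union_inter]
  linarith [sum_nonneg (s := s ∩ t) (fun n _ => hf n)]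

lemma sum_prime_SS (N : ℕ) : ∑ p ∈ (Ico 1 N).filter Nat.Prime, vonMangoldt p * (p : ℝ) ^ (-(3 / 2 : ℝ)) ≤ SS := by
  have hs : Summable (fun n : ℕ => vonMangoldt n * (n : ℝ) ^ (-(3 / 2 : ℝ))) := by
    by_contra h
    have h1 : SS = 0 := tsum_eq_zero_of_not_summable h
    -- SS is positive: use the known summability instead
    have h2 := ArithmeticFunction.LSeriesSummable_vonMangoldt (s := (3 / 2 : ℂ)) (by norm_num)
    apply h
    have h3 := h2.norm
    refine h3.congr fun n => ?_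
    rcases Nat.eq_zero_or_pos n with hn | hn
    · subst hn; simp
    · rw [LSeries.term_of_ne_zero hn.ne', norm_div, Complex.norm_real,
        Real.norm_of_nonneg vonMangoldt_nonneg, Complex.norm_natCast_cpow_of_pos hn]
      rw [Real.rpow_neg (Nat.cast_nonneg _), div_eq_mul_inv]
      norm_num
  exact hs.sum_le_tsum _ (fun n _ => mul_nonneg vonMangoldt_nonneg (by positivity))

lemma rpow_half_le (p : ℕ) (hp : 2 ≤ p) : (p : ℝ) ^ (-(1 / 2 : ℝ)) ≤ 3 / 4 := by
  have h2 : (2 : ℝ) ≤ p := by exact_mod_cast hp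
  rw [rpow_neg_half _ (by positivity)]
  have h3 : (4 / 3 : ℝ) ≤ Real.sqrt p := by
    apply Real.le_sqrt_of_sq_le
    linarith
  calc (Real.sqrt p)⁻¹ ≤ (4 / 3 : ℝ)⁻¹ := inv_anti₀ (by norm_num) h3
    _ = 3 / 4 := by norm_num
where
  rpow_neg_half (x : ℝ) (hx : 0 ≤ x) : x ^ (-(1 / 2 : ℝ)) = (Real.sqrt x)⁻¹ := by
    rw [Real.rpow_neg hx, Real.sqrt_eq_rpow]

/-- decomposition of the sum over prime powers -/
theorem pp (F : ℕ → ℝ) (Q : ℝ) (hF0 : ∀ n, 0 ≤ F n) (hFQ : ∀ n, F n ≤ Q) (M N : ℕ) :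
    ∑ n ∈ Ico 1 N, vonMangoldt n * (n : ℝ) ^ (-(1 / 2 : ℝ)) * F n ≤
      Q * (∑ n ∈ Ico 1 M, vonMangoldt n * (n : ℝ) ^ (-(1 / 2 : ℝ))) +
      ∑ p ∈ (Ico M N).filter Nat.Prime, vonMangoldt p * (p : ℝ) ^ (-(1 / 2 : ℝ)) * F p +
      ∑ p ∈ (Ico 1 N).filter (fun p => p.Prime ∧ M ≤ p ^ 2 ∧ p ^ 2 < N),
        vonMangoldt p * (p : ℝ)⁻¹ * F (p ^ 2) +
      4 * SS * Q := by
  classical
  set g : ℕ → ℝ := fun n => vonMangoldt n * (n : ℝ) ^ (-(1 / 2 : ℝ)) * F n with hg
  have hg0 : ∀ n, 0 ≤ g n := fun n => mul_nonneg (mul_nonneg vonMangoldt_nonneg (by positivity)) (hF0 n)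
  have hQ : 0 ≤ Q := (hF0 0).trans (hFQ 0)
  set S1 := (Ico M N).filter Nat.Prime with hS1
  set S2 := (Ico 1 N).filter (fun p => p.Prime ∧ M ≤ p ^ 2 ∧ p ^ 2 < N) with hS2
  set P0 := (Ico 1 N).filter Nat.Prime with hP0
  set S3 := P0 ×ˢ Ico 3 N with hS3
  have hsub : (Ico 1 N).filter (fun n => vonMangoldt n ≠ 0) ⊆
      ((Ico 1 M ∪ S1) ∪ S2.image (fun p => p ^ 2)) ∪ S3.image (fun x => x.1 ^ x.2) := by
    intro n hn
    rw [mem_filter, mem_Ico] at hn
    obtain ⟨⟨hn1, hnN⟩, hnv⟩ := hn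
    have hpp : IsPrimePow n := vonMangoldt_ne_zero_iff.1 hnv
    rw [isPrimePow_nat_iff] at hpp
    obtain ⟨p, j, hp, hj, rfl⟩ := hpp
    by_cases hM' : p ^ j < M
    · apply mem_union_left; apply mem_union_left; apply mem_union_left
      exact mem_Ico.2 ⟨hn1, hM'⟩
    push Not at hM'
    have hp1 : 1 ≤ p := hp.one_le
    have hple : p ≤ p ^ j := Nat.le_self_pow (by omega) p
    rcases (by omega : j = 1 ∨ j = 2 ∨ 3 ≤ j) with h | h | h
    · subst h
      rw [pow_one] at *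
      apply mem_union_left; apply mem_union_left; apply mem_union_right
      exact mem_filter.2 ⟨mem_Ico.2 ⟨hM', hnN⟩, hp⟩
    · subst h
      apply mem_union_left; apply mem_union_right
      rw [mem_image]
      exact ⟨p, mem_filter.2 ⟨mem_Ico.2 ⟨hp1, by omega⟩, hp, hM', hnN⟩, rfl⟩
    · apply mem_union_right
      rw [mem_image]
      refine ⟨(p, j), ?_, rfl⟩
      rw [hS3, mem_product, hP0, mem_filter, mem_Ico, mem_Ico]
      refine ⟨⟨⟨hp1, by omega⟩, hp⟩, h, ?_⟩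
      have : j < p ^ j := Nat.lt_pow_self hp.one_lt
      show j < N
      omega
  have h0 : ∑ n ∈ Ico 1 N, g n = ∑ n ∈ (Ico 1 N).filter (fun n => vonMangoldt n ≠ 0), g n := by
    rw [sum_filter_of_ne]
    intro n _ hne h
    apply hne
    rw [hg]; simp only
    rw [h]; ring
  rw [h0]
  refine (sum_le_sum_of_subset_of_nonneg hsub fun n _ _ => hg0 n).trans ?_
  refine (sum_union_le g hg0).trans (add_le_add ?_ ?_)
  · refine (sum_union_le g hg0).trans (add_le_add ?_ ?_)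
    · refine (sum_union_le g hg0).trans (add_le_add ?_ ?_)
      · rw [mul_sum]
        refine sum_le_sum fun n _ => ?_
        rw [hg]; simp only
        rw [mul_comm Q]
        exact mul_le_mul_of_nonneg_left (hFQ n) (mul_nonneg vonMangoldt_nonneg (by positivity))
      · exact le_refl _
    · refine (sum_image_le_of_nonneg (fun u _ => hg0 u)).trans ?_
      refine sum_le_sum fun p hp => ?_
      rw [hg]; simp only
      rw [vonMangoldt_apply_pow (by norm_num)]
      have : ((p ^ 2 : ℕ) : ℝ) ^ (-(1 / 2 : ℝ)) = (p : ℝ)⁻¹ := by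
        rw [Nat.cast_pow, ← Real.rpow_natCast, ← Real.rpow_mul (Nat.cast_nonneg _)]
        norm_num
        rw [Real.rpow_neg_one]
      rw [this]
  · refine (sum_image_le_of_nonneg (fun u _ => hg0 u)).trans ?_
    rw [hS3, sum_product]
    have hb : ∀ p ∈ P0, ∑ j ∈ Ico 3 N, g (p ^ j) ≤
        (4 * Q) * (vonMangoldt p * (p : ℝ) ^ (-(3 / 2 : ℝ))) := by
      intro p hp
      rw [hP0, mem_filter] at hp
      have hp2 := hp.2.two_le
      have hp0 : (0 : ℝ) < p := by exact_mod_cast hp.2.pos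
      have hterm : ∀ j ∈ Ico 3 N, g (p ^ j) ≤
          Q * (vonMangoldt p * (p : ℝ) ^ (-(3 / 2 : ℝ))) * (3 / 4 : ℝ) ^ (j - 3) := by
        intro j hj
        rw [mem_Ico] at hj
        have e1 : ((p ^ j : ℕ) : ℝ) ^ (-(1 / 2 : ℝ)) =
            (p : ℝ) ^ (-(3 / 2 : ℝ)) * ((p : ℝ) ^ (-(1 / 2 : ℝ))) ^ (j - 3) := by
          rw [Nat.cast_pow, ← Real.rpow_natCast, ← Real.rpow_mul hp0.le, ← Real.rpow_natCast,
            ← Real.rpow_mul hp0.le, ← Real.rpow_add hp0]
          congr 1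
          rw [Nat.cast_sub hj.1]
          push_cast; ring
        rw [hg]; simp only
        rw [vonMangoldt_apply_pow (by omega), e1]
        have e2 : ((p : ℝ) ^ (-(1 / 2 : ℝ))) ^ (j - 3) ≤ (3 / 4 : ℝ) ^ (j - 3) :=
          pow_le_pow_left₀ (by positivity) (rpow_half_le p hp2) _
        have e3 : 0 ≤ vonMangoldt p * (p : ℝ) ^ (-(3 / 2 : ℝ)) :=
          mul_nonneg vonMangoldt_nonneg (by positivity)
        calc vonMangoldt p * ((p : ℝ) ^ (-(3 / 2 : ℝ)) * ((p : ℝ) ^ (-(1 / 2 : ℝ))) ^ (j - 3)) * F (p ^ j)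
            = (vonMangoldt p * (p : ℝ) ^ (-(3 / 2 : ℝ))) * ((p : ℝ) ^ (-(1 / 2 : ℝ))) ^ (j - 3) * F (p ^ j) := by
              ring
          _ ≤ (vonMangoldt p * (p : ℝ) ^ (-(3 / 2 : ℝ))) * (3 / 4 : ℝ) ^ (j - 3) * Q := by
              apply mul_le_mul _ (hFQ _) (hF0 _) (by positivity)
              exact mul_le_mul_of_nonneg_left e2 e3
          _ = _ := by ring
      refine (sum_le_sum hterm).trans ?_
      rw [← mul_sum]
      have e3 : 0 ≤ Q * (vonMangoldt p * (p : ℝ) ^ (-(3 / 2 : ℝ))) :=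
        mul_nonneg hQ (mul_nonneg vonMangoldt_nonneg (by positivity))
      have e4 : ∑ j ∈ Ico 3 N, (3 / 4 : ℝ) ^ (j - 3) ≤ 4 := by
        rw [sum_Ico_eq_sum_range]
        simp only [Nat.add_sub_cancel_left]
        have h1 : Summable (fun i : ℕ => (3 / 4 : ℝ) ^ i) := summable_geometric_of_lt_one (by norm_num) (by norm_num)
        refine (h1.sum_le_tsum _ (fun i _ => by positivity)).trans ?_
        rw [tsum_geometric_of_lt_one (by norm_num) (by norm_num)]
        norm_num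
      calc Q * (vonMangoldt p * (p : ℝ) ^ (-(3 / 2 : ℝ))) * ∑ j ∈ Ico 3 N, (3 / 4 : ℝ) ^ (j - 3)
          ≤ Q * (vonMangoldt p * (p : ℝ) ^ (-(3 / 2 : ℝ))) * 4 := mul_le_mul_of_nonneg_left e4 e3
        _ = _ := by ring
    refine (sum_le_sum hb).trans ?_
    rw [← mul_sum]
    calc 4 * Q * ∑ p ∈ P0, vonMangoldt p * (p : ℝ) ^ (-(3 / 2 : ℝ)) ≤ 4 * Q * SS :=
          mul_le_mul_of_nonneg_left (sum_prime_SS N) (by positivity)
      _ = _ := by ring

/-- the contribution of a block of primes -/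
theorem blk1 (A B : Finset ℝ) (D : ℕ) (hD : 2 ≤ D) :
    ∑ p ∈ PD D, vonMangoldt p * (p : ℝ) ^ (-(1 / 2 : ℝ)) * (EE A p * EE B p) ≤
      2 * Real.log D * Real.exp (-(Real.log D / 2)) * WW A B D := by
  rw [WW, mul_sum]
  refine sum_le_sum fun p hp => ?_
  rw [PD, mem_filter, mem_Ioc] at hp
  have hD0 : (0 : ℝ) < D := by exact_mod_cast (by omega : 0 < D)
  have hD2 : (2 : ℝ) ≤ D := by exact_mod_cast hD
  have hp0 : (D : ℝ) ≤ p := by exact_mod_cast hp.1.1.le
  have h1 : vonMangoldt p ≤ 2 * Real.log D := by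
    rw [vonMangoldt_apply_prime hp.2]
    calc Real.log p ≤ Real.log ((D : ℝ) ^ 2) := by
          apply Real.log_le_log (by linarith)
          have : (p : ℝ) ≤ 2 * D := by exact_mod_cast hp.1.2
          nlinarith
      _ = 2 * Real.log D := by rw [Real.log_pow]; norm_num
  have h2 : (p : ℝ) ^ (-(1 / 2 : ℝ)) ≤ Real.exp (-(Real.log D / 2)) := by
    have : Real.exp (-(Real.log D / 2)) = (D : ℝ) ^ (-(1 / 2 : ℝ)) := by
      rw [Real.rpow_def_of_pos hD0]; congr 1; ring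
    rw [this]
    exact Real.rpow_le_rpow_of_nonpos hD0 hp0 (by norm_num)
  have h3 : 0 ≤ EE A p * EE B p := mul_nonneg (EE_nonneg _ _) (EE_nonneg _ _)
  exact mul_le_mul_of_nonneg_right (mul_le_mul h1 h2 (by positivity)
    (mul_nonneg (by norm_num) (Real.log_nonneg (by linarith)))) h3

theorem blk2 (A B : Finset ℝ) (D : ℕ) (hD : 2 ≤ D) :
    ∑ p ∈ PD D, vonMangoldt p * (p : ℝ)⁻¹ * (EE A (p ^ 2) * EE B (p ^ 2)) ≤
      2 * Real.log D * Real.exp (-(Real.log D)) * WW (dbl A) (dbl B) D := by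
  rw [WW, mul_sum]
  refine sum_le_sum fun p hp => ?_
  rw [dbl_EE, dbl_EE]
  rw [PD, mem_filter, mem_Ioc] at hp
  have hD0 : (0 : ℝ) < D := by exact_mod_cast (by omega : 0 < D)
  have hD2 : (2 : ℝ) ≤ D := by exact_mod_cast hD
  have hp0 : (D : ℝ) ≤ p := by exact_mod_cast hp.1.1.le
  have h1 : vonMangoldt p ≤ 2 * Real.log D := by
    rw [vonMangoldt_apply_prime hp.2]
    calc Real.log p ≤ Real.log ((D : ℝ) ^ 2) := by
          apply Real.log_le_log (by linarith)
          have : (p : ℝ) ≤ 2 * D := by exact_mod_cast hp.1.2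
          nlinarith
      _ = 2 * Real.log D := by rw [Real.log_pow]; norm_num
  have h2 : (p : ℝ)⁻¹ ≤ Real.exp (-(Real.log D)) := by
    rw [Real.exp_neg, Real.exp_log hD0]
    exact inv_anti₀ hD0 hp0
  have h3 : 0 ≤ EE A (p ^ 2) * EE B (p ^ 2) := mul_nonneg (EE_nonneg _ _) (EE_nonneg _ _)
  exact mul_le_mul_of_nonneg_right (mul_le_mul h1 h2 (by positivity)
    (mul_nonneg (by norm_num) (Real.log_nonneg (by linarith)))) h3

/-- exponents for a block with `d ≤ L` -/
lemma small_arith (L d a b c : ℝ) (hc : 0 < c) (hd : 0 < d) (hdL : d ≤ L) (hb : 0 ≤ b)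
    (hab : (1 + c) * L ≤ a + b / 2) :
    ∃ m : ℕ, 1 ≤ m ∧ 2 * d * Real.exp (-(d / 2)) * ((m + 1 : ℕ) * Real.exp (
      (max d (L / m) - a / m + (max d (L / (m + 1 : ℕ)) - b / (m + 1 : ℕ))) / 2)) ≤
      4 * L * Real.exp (-(c / 2 * d)) ∧
      ∀ L2 : ℝ, L2 ≤ L + 1 → 2 * d * Real.exp (-d) * ((m + 1 : ℕ) * Real.exp (
      (max d (L2 / m) - a / m + (max d (L2 / (m + 1 : ℕ)) - b / (m + 1 : ℕ))) / 2)) ≤
      12 * L * Real.exp (-(1 / 2 * d)) := by
  have hL : 0 < L := by linarith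
  set m : ℕ := ⌊L / d⌋₊ with hm
  have h1 : 1 ≤ L / d := by rw [le_div_iff₀ hd]; linarith
  have hm1 : 1 ≤ m := by rw [hm, Nat.one_le_floor_iff]; exact h1
  have hm0 : (0 : ℝ) < m := by exact_mod_cast hm1
  have hm1' : (1 : ℝ) ≤ m := by exact_mod_cast hm1
  have h2 : (m : ℝ) ≤ L / d := Nat.floor_le (by positivity)
  have h3 : L / d < m + 1 := Nat.lt_floor_add_one _
  have h4 : (m : ℝ) * d ≤ L := by rw [le_div_iff₀ hd] at h2; exact h2
  have h5 : L < (m + 1) * d := by rw [div_lt_iff₀ hd] at h3; exact h3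
  have hLm : d ≤ L / m := by rw [le_div_iff₀ hm0]; linarith
  have hLm1 : L / (m + 1) ≤ d := by rw [div_le_iff₀ (by positivity)]; linarith
  -- the key inequality
  have key : L / m - a / m - b / (m + 1) ≤ -(c * d) := by
    have e1 : (1 + c) * L - b / 2 ≤ a := by linarith
    have e2 : L / m - a / m ≤ (b / 2 - c * L) / m := by
      rw [← sub_div]
      exact div_le_div_of_nonneg_right (by linarith) hm0.le
    have e3 : (b / 2 - c * L) / m = b / (2 * m) - c * (L / m) := by field_simp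
    have e4 : b / (2 * m) ≤ b / (m + 1) := div_le_div_of_nonneg_left hb (by positivity) (by linarith)
    have e5 : c * d ≤ c * (L / m) := mul_le_mul_of_nonneg_left hLm hc.le
    linarith
  have hmd : ((m : ℝ) + 1) * d ≤ 2 * L := by linarith
  refine ⟨m, hm1, ?_, ?_⟩
  · push_cast
    rw [max_eq_right hLm, max_eq_left hLm1]
    have h6 : Real.exp (-(d / 2)) * Real.exp ((L / m - a / m + (d - b / (m + 1))) / 2) ≤
        Real.exp (-(c / 2 * d)) := by
      rw [← Real.exp_add]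
      apply Real.exp_le_exp.2
      linarith
    calc 2 * d * Real.exp (-(d / 2)) * ((m + 1) * Real.exp ((L / m - a / m + (d - b / (m + 1))) / 2))
        = 2 * ((m + 1) * d) * (Real.exp (-(d / 2)) * Real.exp ((L / m - a / m + (d - b / (m + 1))) / 2)) := by
          ring
      _ ≤ 2 * (2 * L) * Real.exp (-(c / 2 * d)) := by
          apply mul_le_mul (by linarith) h6 (by positivity) (by positivity)
      _ = _ := by ring
  · intro L2 hL2
    push_cast
    have f1 : max d (L2 / m) ≤ L / m + 1 := by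
      apply max_le (by linarith)
      rw [div_le_iff₀ hm0, add_mul, div_mul_cancel₀ _ hm0.ne']
      linarith
    have f2 : max d (L2 / (m + 1)) ≤ d + 1 := by
      apply max_le (by linarith)
      rw [div_le_iff₀ (by positivity)]
      nlinarith
    have h6 : Real.exp (-d) * Real.exp ((max d (L2 / m) - a / m + (max d (L2 / (m + 1)) - b / (m + 1))) / 2) ≤
        Real.exp 1 * Real.exp (-(1 / 2 * d)) := by
      rw [← Real.exp_add, ← Real.exp_add]
      apply Real.exp_le_exp.2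
      have : 0 < c * d := by positivity
      linarith
    have h7 := Real.exp_one_lt_d9
    calc 2 * d * Real.exp (-d) * ((m + 1) *
          Real.exp ((max d (L2 / m) - a / m + (max d (L2 / (m + 1)) - b / (m + 1))) / 2))
        = 2 * ((m + 1) * d) * (Real.exp (-d) *
          Real.exp ((max d (L2 / m) - a / m + (max d (L2 / (m + 1)) - b / (m + 1))) / 2)) := by
          ring
      _ ≤ 2 * (2 * L) * (Real.exp 1 * Real.exp (-(1 / 2 * d))) := by
          apply mul_le_mul (by linarith) h6 (by positivity) (by positivity)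
      _ = (4 * Real.exp 1) * L * Real.exp (-(1 / 2 * d)) := by ring
      _ ≤ _ := by
          apply mul_le_mul_of_nonneg_right _ (Real.exp_pos _).le
          apply mul_le_mul_of_nonneg_right _ hL.le
          linarith

lemma big_arith (L d a b c : ℝ) (hL : 0 < L) (hd : L < d) (hdq : d ≤ a + b - c * L) :
    2 * d * Real.exp (-(d / 2)) * ((1 : ℕ) * Real.exp (
      (max d (L / (1 : ℕ)) - a / (1 : ℕ) + (max d (L / (1 : ℕ)) - b / (1 : ℕ))) / 2)) ≤
      2 * d * Real.exp (-(c / 2 * L)) := by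
  have hd0 : 0 < d := by linarith
  simp only [Nat.cast_one, div_one, one_mul]
  rw [max_eq_left hd.le, mul_assoc, ← Real.exp_add]
  apply mul_le_mul_of_nonneg_left _ (by positivity)
  apply Real.exp_le_exp.2
  linarith

end Pool.Agent.H8.LI
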