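import Pool.Agent.H8.LI.PS2

/-! Bilinear prime sums over two sparse sets. -/

set_option autoImplicit false

open Finset ArithmeticFunction

namespace Pool.Agent.H8.LI

open Pool.Agent.H452R4.LI
open Pool.Agent.H345R2.AP (SS SS_nonneg)

lemma geo_le (r : ℝ) (hr0 : 0 < r) (hr1 : r < 1) (i0 K : ℕ) :
    ∑ j ∈ range K, r ^ (j + i0) ≤ r ^ i0 / (1 - r) := by
  have h1 : ∑ j ∈ range K, r ^ (j + i0) = r ^ i0 * ∑ j ∈ range K, r ^ j := by
    rw [mul_sum]; refine sum_congr rfl fun j _ => ?_; rw [pow_add, mul_comm]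
  rw [h1, div_eq_mul_inv]
  apply mul_le_mul_of_nonneg_left _ (by positivity)
  have h2 : Summable (fun i : ℕ => r ^ i) := summable_geometric_of_lt_one hr0.le hr1
  refine (h2.sum_le_tsum _ (fun i _ => by positivity)).trans ?_
  rw [tsum_geometric_of_lt_one hr0.le hr1]

/-- sum over primes by blocks -/
lemma blocks (f : ℕ → ℝ) (hf : ∀ n, 0 ≤ f n) (S : Finset ℕ) (i0 X : ℕ)
    (hS : ∀ p ∈ S, p.Prime ∧ 2 ^ i0 < p ∧ p ≤ X) :
    ∑ p ∈ S, f p ≤ ∑ j ∈ range (Nat.clog 2 X - i0), ∑ p ∈ PD (2 ^ (j + i0)), f p := by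
  classical
  set I := Nat.clog 2 X with hI
  by_cases hi : i0 ≤ I
  · have h1 : S ⊆ (Ioc (2 ^ i0) (2 ^ (I - i0) * 2 ^ i0)).filter Nat.Prime := by
      intro p hp
      obtain ⟨h1, h2, h3⟩ := hS p hp
      rw [mem_filter, mem_Ioc, ← pow_add, Nat.sub_add_cancel hi]
      exact ⟨⟨h2, h3.trans (Nat.le_pow_clog (by norm_num) X)⟩, h1⟩
    refine (sum_le_sum_of_subset_of_nonneg h1 fun n _ _ => hf n).trans ?_
    rw [sum_filter, dyad _ _ _ Nat.one_le_two_pow]
    apply le_of_eq
    refine sum_congr rfl fun j _ => ?_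
    rw [PD, sum_filter, ← pow_add]
  · push Not at hi
    have h1 : S = ∅ := by
      rw [eq_empty_iff_forall_notMem]
      intro p hp
      obtain ⟨h1, h2, h3⟩ := hS p hp
      have h4 : X ≤ 2 ^ I := Nat.le_pow_clog (by norm_num) X
      have h5 : 2 ^ I ≤ 2 ^ i0 := Nat.pow_le_pow_right (by norm_num) hi.le
      omega
    rw [h1, sum_empty]
    exact sum_nonneg fun _ _ => sum_nonneg fun _ _ => hf _

lemma block_lt {j i0 X : ℕ} (hj : j ∈ range (Nat.clog 2 X - i0)) : 2 ^ (j + i0) < X := by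
  rw [mem_range] at hj
  apply Nat.pow_lt_of_lt_clog
  omega

lemma clog_le (N : ℕ) (_hN : 1 ≤ N) : (Nat.clog 2 N : ℝ) ≤ 2 * Real.log N + 1 := by
  rcases Nat.eq_zero_or_pos (Nat.clog 2 N) with h | h
  · rw [h]
    have : 0 ≤ Real.log N := Real.log_natCast_nonneg _
    push_cast; linarith
  · have h1 : 2 ^ (Nat.clog 2 N - 1) < N := by
      apply Nat.pow_lt_of_lt_clog; omega
    have h2 : (((2 ^ (Nat.clog 2 N - 1) : ℕ)) : ℝ) ≤ N := by exact_mod_cast h1.le
    have h3 : Real.log ((2 ^ (Nat.clog 2 N - 1) : ℕ) : ℝ) ≤ Real.log N :=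
      Real.log_le_log (by positivity) h2
    rw [Nat.cast_pow, Real.log_pow, Nat.cast_sub h] at h3
    have h4 := Real.log_two_gt_d9
    have h5 : (0 : ℝ) ≤ (Nat.clog 2 N : ℝ) - 1 := by
      have : (1 : ℝ) ≤ Nat.clog 2 N := by exact_mod_cast h
      linarith
    push_cast at h3
    nlinarith

/-- the growth facts -/
lemma ev1 (c ε K1 K2 : ℝ) (hc : 0 < c) (hε : 0 < ε) :
    ∃ L1 : ℝ, ∀ L : ℝ, L1 ≤ L → K1 * ((6 * L + 1) * (48 * L) * Real.exp (-(c / 16 * L))) + K2 ≤ ε * L := by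
  have h1 : Filter.Tendsto (fun L : ℝ => L ^ (2 : ℝ) * Real.exp (-(c / 16) * L)) Filter.atTop (nhds 0) :=
    tendsto_rpow_mul_exp_neg_mul_atTop_nhds_zero 2 (c / 16) (by positivity)
  have h2 := h1.eventually_le_const (show (0 : ℝ) < 1 by norm_num)
  have h3 := (Filter.eventually_ge_atTop (1 : ℝ)).and ((Filter.eventually_ge_atTop ((|K1| * 336 + |K2|) / ε)).and h2)
  obtain ⟨L1, hL1⟩ := Filter.eventually_atTop.1 h3
  refine ⟨L1, fun L hL => ?_⟩
  obtain ⟨h4, h5, h6⟩ := hL1 L hL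
  rw [div_le_iff₀ hε] at h5
  have h7 : (6 * L + 1) * (48 * L) * Real.exp (-(c / 16 * L)) ≤ 336 := by
    have e1 : L ^ (2 : ℝ) = L * L := by rw [Real.rpow_two]; ring
    rw [e1, show -(c / 16) * L = -(c / 16 * L) by ring] at h6
    have e2 : (6 * L + 1) * (48 * L) ≤ 336 * (L * L) := by nlinarith
    calc (6 * L + 1) * (48 * L) * Real.exp (-(c / 16 * L)) ≤ 336 * (L * L) * Real.exp (-(c / 16 * L)) :=
          mul_le_mul_of_nonneg_right e2 (Real.exp_pos _).le
      _ = 336 * (L * L * Real.exp (-(c / 16 * L))) := by ring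
      _ ≤ 336 * 1 := by linarith
      _ = 336 := by ring
  have h8 : 0 ≤ (6 * L + 1) * (48 * L) * Real.exp (-(c / 16 * L)) := by positivity
  have h9 : K1 * ((6 * L + 1) * (48 * L) * Real.exp (-(c / 16 * L))) ≤ |K1| * 336 := by
    calc K1 * ((6 * L + 1) * (48 * L) * Real.exp (-(c / 16 * L))) ≤
        |K1| * ((6 * L + 1) * (48 * L) * Real.exp (-(c / 16 * L))) :=
          mul_le_mul_of_nonneg_right (le_abs_self _) h8
      _ ≤ |K1| * 336 := mul_le_mul_of_nonneg_left h7 (abs_nonneg _)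
  have h10 := le_abs_self K2
  linarith

lemma ee_bd (A B : Finset ℝ) (n : ℕ) : EE A n * EE B n ≤ (A.card : ℝ) * B.card :=
  mul_le_mul (EE_le A n) (EE_le B n) (EE_nonneg _ _) (Nat.cast_nonneg _)

theorem P1 (c ε : ℝ) (hc : 0 < c) (hε : 0 < ε) :
    ∃ L1 : ℝ, ∀ (T w v : ℝ) (A B : Finset ℝ) (N : ℕ), 1 ≤ T → L1 ≤ Real.log T → 1 ≤ N →
      (∀ a ∈ A, |a| ≤ T) → (∀ b ∈ B, |b| ≤ T) → dens A w → dens B v →
      (1 + c) * Real.log T ≤ Real.log ((A.card : ℝ) / w) + Real.log ((B.card : ℝ) / v) / 2 →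
      Real.log N ≤ Real.log ((A.card : ℝ) / w) + Real.log ((B.card : ℝ) / v) - c * Real.log T →
      ∑ n ∈ Ico 1 N, vonMangoldt n * (n : ℝ) ^ (-(1 / 2 : ℝ)) * (EE A n * EE B n) ≤
        ε * Real.log T * ((A.card : ℝ) * B.card) := by
  classical
  obtain ⟨C, hC, hblk⟩ := wblk
  have hC0 : 0 < C := by linarith
  have hl2 := Real.log_two_gt_d9
  have hl2' := Real.log_two_lt_d9
  set r1 : ℝ := Real.exp (-(c / 2 * Real.log 2)) with hr1
  set r2 : ℝ := Real.exp (-(1 / 2 * Real.log 2)) with hr2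
  have hr10 : 0 < r1 := Real.exp_pos _
  have hr20 : 0 < r2 := Real.exp_pos _
  have hr11 : r1 < 1 := by
    rw [hr1, Real.exp_lt_one_iff]
    have : 0 < c / 2 * Real.log 2 := by positivity
    linarith
  have hr21 : r2 < 1 := by rw [hr2, Real.exp_lt_one_iff]; linarith
  -- choice of i0
  have hlim1 : Filter.Tendsto (fun i : ℕ => 4 * C * (r1 ^ i / (1 - r1)) + 12 * C * (r2 ^ i / (1 - r2)))
      Filter.atTop (nhds (4 * C * (0 / (1 - r1)) + 12 * C * (0 / (1 - r2)))) := by
    apply Filter.Tendsto.add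
    · exact ((tendsto_pow_atTop_nhds_zero_of_lt_one hr10.le hr11).div_const _).const_mul _
    · exact ((tendsto_pow_atTop_nhds_zero_of_lt_one hr20.le hr21).div_const _).const_mul _
  simp only [zero_div, mul_zero, add_zero] at hlim1
  obtain ⟨i0, hi0⟩ := Filter.eventually_atTop.1
    ((hlim1.eventually_le_const (show (0 : ℝ) < ε / 2 by positivity)).and (Filter.eventually_ge_atTop 1))
  obtain ⟨hi0a, hi01⟩ := hi0 i0 le_rfl
  set M : ℕ := 4 ^ i0 + 1 with hM
  set K2 : ℝ := 2 * Real.sqrt M * Real.log M + 4 * SS with hK2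
  obtain ⟨L1, hL1⟩ := ev1 c (ε / 2) C K2 hc (by positivity)
  refine ⟨max L1 (max 3 (3 / c)), ?_⟩
  intro T w v A B N hT hLT hN hA hB hdA hdB hq hlogN
  set L := Real.log T with hL
  have hLL1 : L1 ≤ L := (le_max_left _ _).trans hLT
  have hL3 : 3 ≤ L := (le_max_left _ _).trans ((le_max_right _ _).trans hLT)
  have hLc : 3 ≤ c * L := by
    have := (le_max_right _ _).trans ((le_max_right _ _).trans hLT)
    rw [div_le_iff₀ hc] at this; linarith
  have hL0 : 0 < L := by linarith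
  rcases A.eq_empty_or_nonempty with hAe | hAne
  · subst hAe
    simp [EE]
  rcases B.eq_empty_or_nonempty with hBe | hBne
  · subst hBe
    simp [EE]
  have hw1 : 1 ≤ w := dens_one_le hdA hAne
  have hw : 0 < w := by linarith
  have hv : 0 < v := lt_of_lt_of_le one_pos (dens_one_le hdB hBne)
  have hn : (0 : ℝ) < A.card := by exact_mod_cast card_pos.2 hAne
  have hm : (0 : ℝ) < B.card := by exact_mod_cast card_pos.2 hBne
  set Q : ℝ := (A.card : ℝ) * B.card with hQ
  have hQ0 : 0 < Q := by positivity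
  set a : ℝ := Real.log ((A.card : ℝ) / w) with had
  set b : ℝ := Real.log ((B.card : ℝ) / v) with hbd
  have hT0 : 0 < T := by linarith
  -- upper bounds for a, b
  have hup : ∀ (A' : Finset ℝ) (w' : ℝ), (∀ a ∈ A', |a| ≤ T) → dens A' w' → A'.Nonempty →
      Real.log ((A'.card : ℝ) / w') ≤ L + 2 * Real.log 2 := by
    intro A' w' hA' hd' hne'
    have hn' : (0 : ℝ) < A'.card := by exact_mod_cast card_pos.2 hne'
    have hw' : 0 < w' := lt_of_lt_of_le one_pos (dens_one_le hd' hne')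
    have h1 := exc.2 A' w' T hT0.le hA' hd'
    have h3 : (A'.card : ℝ) / w' ≤ 4 * T := by
      rw [div_le_iff₀ hw']
      have hT1 : 2 * T + 2 ≤ 4 * T := by linarith
      have h4 := mul_le_mul_of_nonneg_left hT1 hw'.le
      linarith
    calc Real.log ((A'.card : ℝ) / w') ≤ Real.log (4 * T) := Real.log_le_log (by positivity) h3
      _ = L + 2 * Real.log 2 := by
        rw [Real.log_mul (by norm_num) hT0.ne', show (4 : ℝ) = 2 ^ 2 by norm_num, Real.log_pow]
        push_cast; ring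
  have ha3 := hup A w hA hdA hAne
  have hb3 := hup B v hB hdB hBne
  have hb0 : 0 ≤ b := by nlinarith
  have hlogN0 : 0 ≤ Real.log N := Real.log_natCast_nonneg _
  have hlogN3 : Real.log N ≤ 3 * L := by linarith
  -- decomposition
  have hdec := pp (fun n => EE A n * EE B n) Q (fun n => mul_nonneg (EE_nonneg _ _) (EE_nonneg _ _))
    (fun n => ee_bd A B n) M N
  refine hdec.trans ?_
  -- primes
  have hS1 : ∑ p ∈ (Ico M N).filter Nat.Prime, vonMangoldt p * (p : ℝ) ^ (-(1 / 2 : ℝ)) * (EE A p * EE B p) ≤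
      Q * (4 * C * (r1 ^ i0 / (1 - r1)) * L + C * ((6 * L + 1) * (48 * L) * Real.exp (-(c / 16 * L)))) := by
    have h1 := blocks (fun p => vonMangoldt p * (p : ℝ) ^ (-(1 / 2 : ℝ)) * (EE A p * EE B p))
      (fun n => mul_nonneg (mul_nonneg vonMangoldt_nonneg (by positivity))
        (mul_nonneg (EE_nonneg _ _) (EE_nonneg _ _))) ((Ico M N).filter Nat.Prime) i0 N (by
        intro p hp
        rw [mem_filter, mem_Ico] at hp
        refine ⟨hp.2, ?_, hp.1.2.le⟩
        have : 2 ^ i0 ≤ 4 ^ i0 := Nat.pow_le_pow_left (by norm_num) _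
        omega)
    refine h1.trans ?_
    have h2 : ∀ j ∈ range (Nat.clog 2 N - i0),
        ∑ p ∈ PD (2 ^ (j + i0)), vonMangoldt p * (p : ℝ) ^ (-(1 / 2 : ℝ)) * (EE A p * EE B p) ≤
        Q * (C * (4 * L * r1 ^ (j + i0) + 48 * L * Real.exp (-(c / 16 * L)))) := by
      intro j hj
      have hlt := block_lt hj
      set D : ℕ := 2 ^ (j + i0) with hD
      have hD2 : 2 ≤ D := by
        calc 2 = 2 ^ 1 := by norm_num
          _ ≤ 2 ^ (j + i0) := Nat.pow_le_pow_right (by norm_num) (by omega)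
      have hd : Real.log D = (j + i0 : ℕ) * Real.log 2 := by
        rw [hD, Nat.cast_pow, Real.log_pow]; norm_num
      have hd0 : 0 < Real.log D := Real.log_pos (by exact_mod_cast (by omega : 1 < D))
      have hdN : Real.log D ≤ Real.log N :=
        Real.log_le_log (by exact_mod_cast (by omega : 0 < D)) (by exact_mod_cast hlt.le)
      have hd3 : Real.log D ≤ 3 * L := by linarith
      have hr : Real.exp (-(c / 2 * Real.log D)) = r1 ^ (j + i0) := by
        rw [hr1, ← Real.exp_nat_mul, hd]; congr 1; ring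
      refine (blk1 A B D hD2).trans ?_
      by_cases hcase : Real.log D ≤ L
      · obtain ⟨m, hm1, h3, -⟩ := small_arith L (Real.log D) a b c hc hd0 hcase hb0 hq
        have h4 := hblk A B T w v D m (m + 1) hT (by omega) hm1 (by omega) hA hB hdA hdB hAne hBne
        rw [hr] at h3
        calc 2 * Real.log D * Real.exp (-(Real.log D / 2)) * WW A B D
            ≤ 2 * Real.log D * Real.exp (-(Real.log D / 2)) *
              (Q * (C * ((m + 1 : ℕ) : ℝ) * Real.exp (
              (max (Real.log D) (L / m) - a / m +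
                (max (Real.log D) (L / (m + 1 : ℕ)) - b / (m + 1 : ℕ))) / 2))) :=
              mul_le_mul_of_nonneg_left h4 (by positivity)
          _ = Q * (C * (2 * Real.log D * Real.exp (-(Real.log D / 2)) *
                (((m + 1 : ℕ) : ℝ) * Real.exp (
              (max (Real.log D) (L / m) - a / m +
                (max (Real.log D) (L / (m + 1 : ℕ)) - b / (m + 1 : ℕ))) / 2)))) := by ring
          _ ≤ Q * (C * (4 * L * r1 ^ (j + i0) + 48 * L * Real.exp (-(c / 16 * L)))) := by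
              apply mul_le_mul_of_nonneg_left _ hQ0.le
              apply mul_le_mul_of_nonneg_left _ hC0.le
              have : 0 ≤ 48 * L * Real.exp (-(c / 16 * L)) := by positivity
              linarith
      · push Not at hcase
        have h3 := big_arith L (Real.log D) a b c hL0 hcase (by linarith)
        have h4 := hblk A B T w v D 1 1 hT (by omega) le_rfl le_rfl hA hB hdA hdB hAne hBne
        calc 2 * Real.log D * Real.exp (-(Real.log D / 2)) * WW A B D
            ≤ 2 * Real.log D * Real.exp (-(Real.log D / 2)) *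
              (Q * (C * ((1 : ℕ) : ℝ) * Real.exp (
              (max (Real.log D) (L / (1 : ℕ)) - a / (1 : ℕ) +
                (max (Real.log D) (L / (1 : ℕ)) - b / (1 : ℕ))) / 2))) :=
              mul_le_mul_of_nonneg_left h4 (by positivity)
          _ = Q * (C * (2 * Real.log D * Real.exp (-(Real.log D / 2)) *
                (((1 : ℕ) : ℝ) * Real.exp (
              (max (Real.log D) (L / (1 : ℕ)) - a / (1 : ℕ) +
                (max (Real.log D) (L / (1 : ℕ)) - b / (1 : ℕ))) / 2)))) := by ring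
          _ ≤ Q * (C * (4 * L * r1 ^ (j + i0) + 48 * L * Real.exp (-(c / 16 * L)))) := by
              apply mul_le_mul_of_nonneg_left _ hQ0.le
              apply mul_le_mul_of_nonneg_left _ hC0.le
              have h5 : 0 ≤ 4 * L * r1 ^ (j + i0) := by positivity
              have h6 : 2 * Real.log D * Real.exp (-(c / 2 * L)) ≤ 48 * L * Real.exp (-(c / 16 * L)) := by
                apply mul_le_mul (by linarith) _ (Real.exp_pos _).le (by positivity)
                apply Real.exp_le_exp.2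
                linarith
              linarith
    refine (sum_le_sum h2).trans ?_
    rw [← mul_sum, ← mul_sum, sum_add_distrib, ← mul_sum, sum_const, card_range, nsmul_eq_mul]
    apply mul_le_mul_of_nonneg_left _ hQ0.le
    have h3 := geo_le r1 hr10 hr11 i0 (Nat.clog 2 N - i0)
    have h4 : ((Nat.clog 2 N - i0 : ℕ) : ℝ) ≤ 6 * L + 1 := by
      have h5 : ((Nat.clog 2 N - i0 : ℕ) : ℝ) ≤ Nat.clog 2 N := by exact_mod_cast Nat.sub_le _ _
      have h6 := clog_le N hN
      linarith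
    have h7 : 0 ≤ 48 * L * Real.exp (-(c / 16 * L)) := by positivity
    have h8 : ((Nat.clog 2 N - i0 : ℕ) : ℝ) * (48 * L * Real.exp (-(c / 16 * L))) ≤
        (6 * L + 1) * (48 * L * Real.exp (-(c / 16 * L))) := mul_le_mul_of_nonneg_right h4 h7
    have h9 : 4 * L * ∑ j ∈ range (Nat.clog 2 N - i0), r1 ^ (j + i0) ≤ 4 * L * (r1 ^ i0 / (1 - r1)) :=
      mul_le_mul_of_nonneg_left h3 (by positivity)
    calc C * (4 * L * ∑ j ∈ range (Nat.clog 2 N - i0), r1 ^ (j + i0) +
          ((Nat.clog 2 N - i0 : ℕ) : ℝ) * (48 * L * Real.exp (-(c / 16 * L))))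
        ≤ C * (4 * L * (r1 ^ i0 / (1 - r1)) + (6 * L + 1) * (48 * L * Real.exp (-(c / 16 * L)))) :=
          mul_le_mul_of_nonneg_left (add_le_add h9 h8) hC0.le
      _ = _ := by ring
  -- squares of primes
  have hS2 : ∑ p ∈ (Ico 1 N).filter (fun p => p.Prime ∧ M ≤ p ^ 2 ∧ p ^ 2 < N),
        vonMangoldt p * (p : ℝ)⁻¹ * (EE A (p ^ 2) * EE B (p ^ 2)) ≤
      Q * (12 * C * (r2 ^ i0 / (1 - r2)) * L) := by
    have h1 := blocks (fun p => vonMangoldt p * (p : ℝ)⁻¹ * (EE A (p ^ 2) * EE B (p ^ 2)))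
      (fun n => mul_nonneg (mul_nonneg vonMangoldt_nonneg (by positivity))
        (mul_nonneg (EE_nonneg _ _) (EE_nonneg _ _)))
      ((Ico 1 N).filter (fun p => p.Prime ∧ M ≤ p ^ 2 ∧ p ^ 2 < N)) i0 (Nat.sqrt N + 1) (by
        intro p hp
        rw [mem_filter, mem_Ico] at hp
        obtain ⟨hp1, hp2, hp3, hp4⟩ := hp
        refine ⟨hp2, ?_, ?_⟩
        · by_contra hcon
          push Not at hcon
          have h3 : p ^ 2 ≤ (2 ^ i0) ^ 2 := Nat.pow_le_pow_left hcon 2
          rw [← pow_mul, mul_comm, pow_mul] at h3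
          norm_num at h3
          omega
        · have h3 : p ≤ Nat.sqrt N := by
            rw [Nat.le_sqrt']; exact hp4.le
          omega)
    refine h1.trans ?_
    have h2 : ∀ j ∈ range (Nat.clog 2 (Nat.sqrt N + 1) - i0),
        ∑ p ∈ PD (2 ^ (j + i0)), vonMangoldt p * (p : ℝ)⁻¹ * (EE A (p ^ 2) * EE B (p ^ 2)) ≤
        Q * (C * (12 * L * r2 ^ (j + i0))) := by
      intro j hj
      have hlt := block_lt hj
      set D : ℕ := 2 ^ (j + i0) with hD
      have hD2 : 2 ≤ D := by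
        calc 2 = 2 ^ 1 := by norm_num
          _ ≤ 2 ^ (j + i0) := Nat.pow_le_pow_right (by norm_num) (by omega)
      have hd : Real.log D = (j + i0 : ℕ) * Real.log 2 := by
        rw [hD, Nat.cast_pow, Real.log_pow]; norm_num
      have hd0 : 0 < Real.log D := Real.log_pos (by exact_mod_cast (by omega : 1 < D))
      have hDD : D ^ 2 ≤ N := by
        have : D ≤ Nat.sqrt N := by omega
        exact Nat.le_sqrt'.1 this
      have hdN : 2 * Real.log D ≤ Real.log N := by
        have h3 : Real.log ((D ^ 2 : ℕ) : ℝ) ≤ Real.log N :=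
          Real.log_le_log (by positivity) (by exact_mod_cast hDD)
        rw [Nat.cast_pow, Real.log_pow] at h3
        exact_mod_cast h3
      have hdL : Real.log D ≤ L := by linarith
      have hr : Real.exp (-(1 / 2 * Real.log D)) = r2 ^ (j + i0) := by
        rw [hr2, ← Real.exp_nat_mul, hd]; congr 1; ring
      refine (blk2 A B D hD2).trans ?_
      have hL2 : Real.log (2 * T) ≤ L + 1 := by
        rw [Real.log_mul (by norm_num) hT0.ne']; linarith
      obtain ⟨m, hm1, -, h3⟩ := small_arith L (Real.log D) a b c hc hd0 hdL hb0 hq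
      have h3 := h3 _ hL2
      have h4 := hblk (dbl A) (dbl B) (2 * T) w v D m (m + 1) (by linarith) (by omega) hm1 (by omega)
        (dbl_bd hA) (dbl_bd hB) (dbl_dens hdA) (dbl_dens hdB) (hAne.image _) (hBne.image _)
      rw [dbl_card, dbl_card] at h4
      rw [hr] at h3
      calc 2 * Real.log D * Real.exp (-(Real.log D)) * WW (dbl A) (dbl B) D
          ≤ 2 * Real.log D * Real.exp (-(Real.log D)) *
            (Q * (C * ((m + 1 : ℕ) : ℝ) * Real.exp (
              (max (Real.log D) (Real.log (2 * T) / m) - a / m +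
                (max (Real.log D) (Real.log (2 * T) / (m + 1 : ℕ)) - b / (m + 1 : ℕ))) / 2))) :=
            mul_le_mul_of_nonneg_left h4 (by positivity)
        _ = Q * (C * (2 * Real.log D * Real.exp (-(Real.log D)) *
              (((m + 1 : ℕ) : ℝ) * Real.exp (
              (max (Real.log D) (Real.log (2 * T) / m) - a / m +
                (max (Real.log D) (Real.log (2 * T) / (m + 1 : ℕ)) - b / (m + 1 : ℕ))) / 2)))) := by ring
        _ ≤ Q * (C * (12 * L * r2 ^ (j + i0))) := by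
            apply mul_le_mul_of_nonneg_left _ hQ0.le
            apply mul_le_mul_of_nonneg_left _ hC0.le
            exact h3
    refine (sum_le_sum h2).trans ?_
    rw [← mul_sum, ← mul_sum, ← mul_sum]
    apply mul_le_mul_of_nonneg_left _ hQ0.le
    have h3 := geo_le r2 hr20 hr21 i0 (Nat.clog 2 (Nat.sqrt N + 1) - i0)
    calc C * (12 * L * ∑ j ∈ range (Nat.clog 2 (Nat.sqrt N + 1) - i0), r2 ^ (j + i0))
        ≤ C * (12 * L * (r2 ^ i0 / (1 - r2))) := by gcongr
      _ = _ := by ring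
  have hpl := plain M (by rw [hM]; exact Nat.le_add_left 1 _)
  have hfin := hL1 L hLL1
  have h1 : Q * ∑ n ∈ Ico 1 M, vonMangoldt n * (n : ℝ) ^ (-(1 / 2 : ℝ)) ≤ Q * (2 * Real.sqrt M * Real.log M) :=
    mul_le_mul_of_nonneg_left hpl hQ0.le
  have h2 : (4 * C * (r1 ^ i0 / (1 - r1)) + 12 * C * (r2 ^ i0 / (1 - r2))) * L ≤ ε / 2 * L :=
    mul_le_mul_of_nonneg_right hi0a hL0.le
  have h3 : Q * (C * ((6 * L + 1) * (48 * L) * Real.exp (-(c / 16 * L))) + K2) ≤ Q * (ε / 2 * L) :=
    mul_le_mul_of_nonneg_left hfin hQ0.le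
  have h4 : Q * ((4 * C * (r1 ^ i0 / (1 - r1)) + 12 * C * (r2 ^ i0 / (1 - r2))) * L) ≤ Q * (ε / 2 * L) :=
    mul_le_mul_of_nonneg_left h2 hQ0.le
  rw [hK2] at h3
  set X1 := ∑ n ∈ Ico 1 M, vonMangoldt n * (n : ℝ) ^ (-(1 / 2 : ℝ))
  set X2 := ∑ p ∈ (Ico M N).filter Nat.Prime, vonMangoldt p * (p : ℝ) ^ (-(1 / 2 : ℝ)) * (EE A p * EE B p)
  set X3 := ∑ p ∈ (Ico 1 N).filter (fun p => p.Prime ∧ M ≤ p ^ 2 ∧ p ^ 2 < N),
        vonMangoldt p * (p : ℝ)⁻¹ * (EE A (p ^ 2) * EE B (p ^ 2))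
  have e1 : Q * (4 * C * (r1 ^ i0 / (1 - r1)) * L + C * ((6 * L + 1) * (48 * L) * Real.exp (-(c / 16 * L)))) +
      Q * (12 * C * (r2 ^ i0 / (1 - r2)) * L) + Q * (2 * Real.sqrt M * Real.log M) + 4 * SS * Q =
      Q * (C * ((6 * L + 1) * (48 * L) * Real.exp (-(c / 16 * L))) + (2 * Real.sqrt M * Real.log M + 4 * SS)) +
      Q * ((4 * C * (r1 ^ i0 / (1 - r1)) + 12 * C * (r2 ^ i0 / (1 - r2))) * L) := by ring
  have e2 : Q * (ε / 2 * L) + Q * (ε / 2 * L) = ε * L * Q := by ring
  show Q * X1 + X2 + X3 + 4 * SS * Q ≤ ε * L * Q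
  linarith

end Pool.Agent.H8.LI
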