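import Pool.Agent.H8.LI.GEN
import Pool.Graph.R_seed8.TH352.SU.Dist
import Pool.Graph.R_seed8.TH352.SU.Fin

/-! Shifts of the set of ordinates by the elements of a sparse set. -/

set_option autoImplicit false

open Finset ArithmeticFunction Filter

namespace Pool.Agent.H8.LI

open Pool.Agent.H452R4.LI
open Pool.Agent.H345R2.AP (mz SS SS_nonneg)
open Pool.Agent.TH352.SU (OS OS_finite Gam mem_Gam card_low)

lemma mz_pos (t : ℝ) (h : riemannZeta (1 / 2 + Complex.I * (t : ℂ)) = 0) : 1 ≤ mz t := by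
  have hUpre : IsPreconnected ({1}ᶜ : Set ℂ) :=
    (isConnected_compl_singleton_of_one_lt_rank (by simp) (1 : ℂ)).isPreconnected
  have hAn : AnalyticOnNhd ℂ riemannZeta ({1}ᶜ : Set ℂ) := by
    apply DifferentiableOn.analyticOnNhd _ isOpen_compl_singleton
    intro w hw
    exact (differentiableAt_riemannZeta hw).differentiableWithinAt
  have hs1 : (1 / 2 + Complex.I * (t : ℂ)) ≠ 1 := by
    intro h
    have := congrArg Complex.re h
    simp at this
  have := (H370.Loc.mult_pos hUpre hAn (c := 2) (by simp)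
            (riemannZeta_ne_zero_of_one_le_re (by simp))
            (show (1 / 2 + Complex.I * (t : ℂ)) ∈ ({1}ᶜ : Set ℂ) from hs1)).2 h
  exact this

lemma ev3 (δ ε K1 K2 : ℝ) (hδ : 0 < δ) (hε : 0 < ε) :
    ∀ᶠ T : ℝ in atTop, K1 ≤ T ^ (δ / 2) ∧ 0 < (1 + δ) * Real.log T - K2 ∧
      Real.log T / ((1 + δ) * Real.log T - K2) ≤ 1 / (1 + δ) + ε := by
  have h1 : Tendsto (fun T : ℝ => T ^ (δ / 2)) atTop atTop := tendsto_rpow_atTop (by positivity)
  filter_upwards [h1.eventually_ge_atTop K1, Real.tendsto_log_atTop.eventually_ge_atTop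
    (max 1 ((|K2| + 1) * (1 + (1 + 1 / ε))))] with T hT1 hT2
  set L := Real.log T with hL
  have hL1 : 1 ≤ L := (le_max_left _ _).trans hT2
  have hL2 : (|K2| + 1) * (1 + (1 + 1 / ε)) ≤ L := (le_max_right _ _).trans hT2
  have hK2 : K2 ≤ |K2| := le_abs_self _
  have hpos : 0 < (1 + δ) * L - K2 := by
    have h3 : (|K2| + 1) * 1 ≤ (|K2| + 1) * (1 + (1 + 1 / ε)) := by
      apply mul_le_mul_of_nonneg_left _ (by positivity)
      have : 0 < 1 / ε := by positivity
      linarith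
    nlinarith
  refine ⟨hT1, hpos, ?_⟩
  rw [div_le_iff₀ hpos]
  have hd : 0 < 1 + δ := by linarith
  have e1 : (1 / (1 + δ) + ε) * ((1 + δ) * L - K2) = L - K2 / (1 + δ) + ε * ((1 + δ) * L - K2) := by
    field_simp
  rw [e1]
  have h4 : K2 / (1 + δ) ≤ |K2| := by
    rw [div_le_iff₀ hd]
    have := abs_nonneg K2
    nlinarith
  have h5 : |K2| ≤ ε * ((1 + δ) * L - K2) := by
    have h6 : (|K2| + 1) * (2 + 1 / ε) ≤ L := by
      have : (1 + (1 + 1 / ε)) = 2 + 1 / ε := by ring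
      rw [← this]; exact hL2
    have h7 : ε * ((|K2| + 1) * (2 + 1 / ε)) ≤ ε * L := mul_le_mul_of_nonneg_left h6 hε.le
    have h8 : ε * ((|K2| + 1) * (2 + 1 / ε)) = (|K2| + 1) * (2 * ε + 1) := by field_simp
    have h9 : ε * L ≤ ε * ((1 + δ) * L) := by
      apply mul_le_mul_of_nonneg_left _ hε.le
      nlinarith
    have h10 : ε * K2 ≤ ε * |K2| := mul_le_mul_of_nonneg_left hK2 hε.le
    have := abs_nonneg K2
    nlinarith
  linarith

theorem shifts (hRH : RH0) (δ ε : ℝ) (hδ : 0 < δ) (hε : 0 < ε) :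
    ∃ T1 : ℝ, ∀ T : ℝ, T1 ≤ T → ∀ (H : Finset ℝ) (v : ℝ), 0 < v → (∀ h ∈ H, |h| ≤ T) → dens H v →
      v * T ^ δ ≤ H.card →
      ∑ h ∈ H, (({γ : ℝ | γ ∈ OS T ∧ riemannZeta (1 / 2 + Complex.I * ((γ + h : ℝ) : ℂ)) = 0}).ncard : ℝ) ≤
        (1 / (1 + δ) + ε) * ((OS T).ncard * H.card) := by
  classical
  obtain ⟨T1, hT13, hgen⟩ := gen2 hRH (δ / 2) (ε / 2) (by positivity) (by positivity)
  obtain ⟨C, hC, hzc⟩ := zc
  obtain ⟨c, T2, hc, hlow⟩ := card_low hRH (1 / 2) (1 / 2) 1 (by norm_num) le_rfl (by norm_num)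
  obtain ⟨T3, hT3⟩ := eventually_atTop.mp (ev3 δ (ε / 2) ((C / c) ^ 2) (Real.log (C / c)) hδ (by positivity))
  refine ⟨max (max T1 T2) (max T3 3), ?_⟩
  intro T hT H v hv hH hdH hHc
  have g1 : T1 ≤ T := ((le_max_left _ _).trans (le_max_left _ _)).trans hT
  have g2 : T2 ≤ T := ((le_max_right _ _).trans (le_max_left _ _)).trans hT
  have g3 : T3 ≤ T := ((le_max_left _ _).trans (le_max_right _ _)).trans hT
  have g4 : 3 ≤ T := ((le_max_right _ _).trans (le_max_right _ _)).trans hT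
  obtain ⟨k1, k2, k3⟩ := hT3 T g3
  have hT0 : 0 < T := by linarith
  have hlog : 0 < Real.log T := Real.log_pos (by linarith)
  set A : Finset ℝ := (OS_finite T).toFinset with hA
  have hAmem : ∀ γ, γ ∈ A ↔ (0 < γ ∧ γ ≤ T ∧ riemannZeta (1 / 2 + Complex.I * (γ : ℂ)) = 0) := by
    intro γ; rw [hA, Set.Finite.mem_toFinset]; rfl
  have hAcard : (OS T).ncard = A.card := by
    rw [hA, Set.ncard_eq_toFinset_card _ (OS_finite T)]
  have hdA : dens A (C * Real.log T) := hzc T A g4 (fun γ hγ => (hAmem γ).1 hγ)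
  have hAT : ∀ a ∈ A, |a| ≤ T := by
    intro a ha
    obtain ⟨h1, h2, -⟩ := (hAmem a).1 ha
    rw [abs_of_pos h1]; exact h2
  have hAlow : c * T * Real.log T ≤ A.card := by
    have h1 := hlow T g2 (T / 2) (by linarith) (by linarith) (by linarith)
    refine h1.trans ?_
    have h2 : Gam (T / 2) (T / 2 + 1 / 2 * T) (by linarith) ⊆ A := by
      intro γ hγ
      rw [mem_Gam] at hγ
      rw [hAmem]
      refine ⟨by linarith [hγ.1], by linarith [hγ.2.1], hγ.2.2⟩
    exact_mod_cast card_le_card h2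
  have hApos : (0 : ℝ) < A.card := lt_of_lt_of_le (by positivity) hAlow
  have hHpos : (0 : ℝ) < H.card := lt_of_lt_of_le (by positivity) hHc
  have hX : (C * Real.log T) ^ 2 * v * T ^ (2 + δ / 2) ≤ (A.card : ℝ) ^ 2 * H.card := by
    have h1 : (C * Real.log T) ^ 2 ≤ (c * Real.log T) ^ 2 * T ^ (δ / 2) := by
      have h2 : (C * Real.log T) ^ 2 = (c * Real.log T) ^ 2 * (C / c) ^ 2 := by field_simp
      rw [h2]
      exact mul_le_mul_of_nonneg_left k1 (by positivity)
    have h3 : T ^ (2 + δ / 2) = T ^ 2 * T ^ (δ / 2) := by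
      rw [Real.rpow_add hT0]; norm_num
    have h4 : T ^ (δ / 2) * T ^ (δ / 2) = T ^ δ := by
      rw [← Real.rpow_add hT0]; congr 1; ring
    calc (C * Real.log T) ^ 2 * v * T ^ (2 + δ / 2)
        ≤ ((c * Real.log T) ^ 2 * T ^ (δ / 2)) * v * (T ^ 2 * T ^ (δ / 2)) := by
          rw [h3]
          exact mul_le_mul_of_nonneg_right (mul_le_mul_of_nonneg_right h1 hv.le) (by positivity)
      _ = (c * T * Real.log T) ^ 2 * (v * (T ^ (δ / 2) * T ^ (δ / 2))) := by ring
      _ ≤ (A.card : ℝ) ^ 2 * H.card := by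
          rw [h4]
          exact mul_le_mul (pow_le_pow_left₀ (by positivity) hAlow 2) hHc (by positivity) (by positivity)
  have hg := hgen T g1 A H (C * Real.log T) v hAT hH hdA hdH (by positivity) hv hX
  -- the constant
  have hq : (1 + δ) * Real.log T - Real.log (C / c) ≤
      Real.log ((A.card : ℝ) * H.card / (C * Real.log T * v)) := by
    have h1 : (c / C) * T ^ (1 + δ) ≤ (A.card : ℝ) * H.card / (C * Real.log T * v) := by
      rw [le_div_iff₀ (by positivity)]
      calc (c / C) * T ^ (1 + δ) * (C * Real.log T * v) = (c * T * Real.log T) * (v * T ^ δ) := by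
            rw [Real.rpow_add hT0, Real.rpow_one]; field_simp
        _ ≤ _ := mul_le_mul hAlow hHc (by positivity) (by positivity)
    have h2 := Real.log_le_log (by positivity) h1
    rw [Real.log_mul (by positivity) (by positivity), Real.log_rpow hT0] at h2
    have h3 : Real.log (c / C) = - Real.log (C / c) := by
      rw [← Real.log_inv, inv_div]
    linarith
  have hconst : Real.log T / Real.log ((A.card : ℝ) * H.card / (C * Real.log T * v)) ≤
      1 / (1 + δ) + ε / 2 :=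
    (div_le_div_of_nonneg_left hlog.le k2 hq).trans k3
  have hcount : ∑ h ∈ H, (({γ : ℝ | γ ∈ OS T ∧
      riemannZeta (1 / 2 + Complex.I * ((γ + h : ℝ) : ℂ)) = 0}).ncard : ℝ) ≤
      ∑ a ∈ A, ∑ b ∈ H, (mz (a + b) : ℝ) := by
    rw [sum_comm]
    apply sum_le_sum
    intro h _
    have h1 : {γ : ℝ | γ ∈ OS T ∧ riemannZeta (1 / 2 + Complex.I * ((γ + h : ℝ) : ℂ)) = 0} =
        (A.filter (fun γ => riemannZeta (1 / 2 + Complex.I * ((γ + h : ℝ) : ℂ)) = 0) : Set ℝ) := by
      ext γ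
      rw [coe_filter]
      simp only [hA, Set.Finite.mem_toFinset]
    rw [h1, Set.ncard_coe_finset, card_eq_sum_ones, Nat.cast_sum]
    simp only [Nat.cast_one]
    calc ∑ _x ∈ A.filter (fun γ => riemannZeta (1 / 2 + Complex.I * ((γ + h : ℝ) : ℂ)) = 0), (1 : ℝ)
        ≤ ∑ x ∈ A.filter (fun γ => riemannZeta (1 / 2 + Complex.I * ((γ + h : ℝ) : ℂ)) = 0), (mz (x + h) : ℝ) := by
          apply sum_le_sum
          intro x hx
          rw [mem_filter] at hx
          exact_mod_cast mz_pos _ hx.2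
      _ ≤ _ := by
          apply sum_le_sum_of_subset_of_nonneg (filter_subset _ _)
          intro i _ _; positivity
  refine hcount.trans (hg.trans ?_)
  rw [hAcard]
  apply mul_le_mul_of_nonneg_right _ (by positivity)
  linarith

end Pool.Agent.H8.LI
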